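import Mathlib

/-!
# Conformal decomposition in a subgroup of `ℤ^d`

`Conf u x` says that `u` has the same signs as `x` and is coordinatewise smaller in absolute value.
For a subgroup `Λ ≤ ℤ^d` and a coordinate `i` there is a finite set `𝒢 ⊆ Λ` such that
`|x_i| ≤ ∑_{g ∈ 𝒢} N_g(x) |g_i|` for all `x ∈ Λ`, where `N_g(x)` is the largest `m` with `Conf (m g) x`.
-/

namespace Pool.Agent.Lib.MP_15f9af_an

open Finset

/-- conformal order on `ℤ^d` -/
def Conf {d : ℕ} (u x : Fin d → ℤ) : Prop :=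
  ∀ j, (0 ≤ u j ∧ u j ≤ x j) ∨ (x j ≤ u j ∧ u j ≤ 0)

theorem Conf.zero {d : ℕ} (x : Fin d → ℤ) : Conf 0 x := by
  intro j
  rcases le_total 0 (x j) with h | h
  · left; exact ⟨le_refl _, h⟩
  · right; exact ⟨h, le_refl _⟩

theorem Conf.trans {d : ℕ} {u v x : Fin d → ℤ} (h1 : Conf u v) (h2 : Conf v x) : Conf u x := by
  intro j
  have a := h1 j
  have b := h2 j
  omega

theorem Conf.sub {d : ℕ} {u x : Fin d → ℤ} (h : Conf u x) : Conf (x - u) x := by
  intro j
  have a := h j
  simp only [Pi.sub_apply]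
  omega

/-- finite basis theorem (Dickson) for `ι → ℕ` -/
theorem exists_finite_basis {ι : Type*} [Fintype ι] (S : Set (ι → ℕ)) :
    ∃ B : Finset (ι → ℕ), (∀ b ∈ B, b ∈ S) ∧ ∀ x ∈ S, ∃ b ∈ B, b ≤ x := by
  classical
  set M : Set (ι → ℕ) := {x | x ∈ S ∧ ∀ y ∈ S, y ≤ x → y = x} with hM
  have hanti : IsAntichain (· ≤ ·) M := by
    intro a ha b hb hab hle
    exact hab (hb.2 a ha.1 hle)
  have hfin : M.Finite := WellQuasiOrderedLE.finite_of_isAntichain hanti
  refine ⟨hfin.toFinset, fun b hb => ?_, fun x hx => ?_⟩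
  · have : b ∈ M := by simpa using hb
    exact this.1
  · -- choose y in S, y ≤ x, with minimal sum
    have hne : ∃ n : ℕ, ∃ y ∈ S, y ≤ x ∧ ∑ i, y i = n := ⟨_, x, hx, le_refl _, rfl⟩
    obtain ⟨y, hyS, hyx, hysum⟩ := Nat.find_spec hne
    refine ⟨y, ?_, hyx⟩
    have : y ∈ M := by
      refine ⟨hyS, fun z hz hzy => ?_⟩
      by_contra hzne
      have hlt : ∑ i, z i < ∑ i, y i := by
        apply Finset.sum_lt_sum (fun i _ => hzy i)
        by_contra hcon
        push Not at hcon
        apply hzne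
        funext i
        exact le_antisymm (hzy i) (hcon i (Finset.mem_univ i))
      exact Nat.find_min hne (hysum ▸ hlt) ⟨z, hz, hzy.trans hyx, rfl⟩
    simpa using this

/-- finite basis for the conformal order -/
theorem exists_conf_basis {d : ℕ} (S : Set (Fin d → ℤ)) :
    ∃ B : Finset (Fin d → ℤ), (∀ b ∈ B, b ∈ S) ∧ ∀ x ∈ S, ∃ b ∈ B, Conf b x := by
  classical
  let φ : (Fin d → ℤ) → (Fin d ⊕ Fin d → ℕ) := fun x =>
    Sum.elim (fun j => (x j).toNat) (fun j => (-x j).toNat)
  let ψ : (Fin d ⊕ Fin d → ℕ) → (Fin d → ℤ) := fun f j => (f (Sum.inl j) : ℤ) - f (Sum.inr j)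
  have hψφ : ∀ x, ψ (φ x) = x := by
    intro x
    funext j
    simp only [ψ, φ, Sum.elim_inl, Sum.elim_inr]
    omega
  obtain ⟨B, hB1, hB2⟩ := exists_finite_basis (φ '' S)
  refine ⟨B.image ψ, ?_, ?_⟩
  · intro b hb
    obtain ⟨c, hc, rfl⟩ := Finset.mem_image.1 hb
    obtain ⟨x, hx, rfl⟩ := hB1 c hc
    rw [hψφ]; exact hx
  · intro x hx
    obtain ⟨b, hb, hbx⟩ := hB2 (φ x) ⟨x, hx, rfl⟩
    refine ⟨ψ b, Finset.mem_image_of_mem _ hb, ?_⟩
    obtain ⟨y, hy, rfl⟩ := hB1 b hb
    rw [hψφ]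
    intro j
    have h1 := hbx (Sum.inl j)
    have h2 := hbx (Sum.inr j)
    simp only [φ, Sum.elim_inl, Sum.elim_inr] at h1 h2
    omega

/-- the largest `m` with `Conf (m g) x` (bounded by `|x_i|`) -/
noncomputable def mult {d : ℕ} (i : Fin d) (g x : Fin d → ℤ) : ℕ :=
  open Classical in Nat.findGreatest (fun m => Conf ((m : ℤ) • g) x) (x i).natAbs

theorem mult_spec {d : ℕ} (i : Fin d) (g x : Fin d → ℤ) : Conf ((mult i g x : ℤ) • g) x := by
  classical
  have h0 : Conf (((0 : ℕ) : ℤ) • g) x := by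
    simpa using Conf.zero x
  have := Nat.findGreatest_spec (P := fun m : ℕ => Conf ((m : ℤ) • g) x) (Nat.zero_le (x i).natAbs) h0
  unfold mult
  exact this

theorem mult_le {d : ℕ} (i : Fin d) (g x : Fin d → ℤ) : mult i g x ≤ (x i).natAbs := by
  classical
  unfold mult
  exact Nat.findGreatest_le _

theorem le_mult {d : ℕ} (i : Fin d) (g x : Fin d → ℤ) (hg : g i ≠ 0) (m : ℕ)
    (h : Conf ((m : ℤ) • g) x) : m ≤ mult i g x := by
  classical
  unfold mult
  apply Nat.le_findGreatest _ h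
  have := h i
  simp only [Pi.smul_apply, smul_eq_mul] at this
  have hg1 : 1 ≤ (g i).natAbs := by omega
  have h2 : ((m : ℤ) * g i).natAbs ≤ (x i).natAbs := by omega
  rw [Int.natAbs_mul, Int.natAbs_natCast] at h2
  calc m = m * 1 := (mul_one m).symm
    _ ≤ m * (g i).natAbs := Nat.mul_le_mul_left m hg1
    _ ≤ _ := h2

theorem mult_mono {d : ℕ} (i : Fin d) (g x y : Fin d → ℤ) (hg : g i ≠ 0) (h : Conf x y) :
    mult i g x ≤ mult i g y :=
  le_mult i g y hg _ ((mult_spec i g x).trans h)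

theorem mult_add_one_le {d : ℕ} (i : Fin d) (g x : Fin d → ℤ) (hg : g i ≠ 0) (h : Conf g x) :
    mult i g (x - g) + 1 ≤ mult i g x := by
  apply le_mult i g x hg
  intro j
  have h1 := mult_spec i g (x - g) j
  have h2 := h j
  simp only [Pi.smul_apply, smul_eq_mul, Pi.sub_apply] at h1
  simp only [Pi.smul_apply, smul_eq_mul]
  push_cast
  have e : ((mult i g (x - g) : ℤ) + 1) * g j = (mult i g (x - g) : ℤ) * g j + g j := by ring
  rw [e]
  omega

/-- `mult` drops by at most two under `x ↦ x - 2 g`. -/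
theorem mult_le_sub_two {d : ℕ} (i : Fin d) (g x : Fin d → ℤ) (hg : g i ≠ 0) :
    mult i g x ≤ mult i g (x - (2 : ℤ) • g) + 2 := by
  rcases Nat.lt_or_ge (mult i g x) 2 with hlt | hge
  · omega
  · obtain ⟨m, hm⟩ : ∃ m, mult i g x = m + 2 := ⟨mult i g x - 2, by omega⟩
    rw [hm]
    have hs := mult_spec i g x
    rw [hm] at hs
    have : m ≤ mult i g (x - (2 : ℤ) • g) := by
      apply le_mult i g _ hg
      intro j
      have h1 := hs j
      simp only [Pi.smul_apply, smul_eq_mul, Pi.sub_apply] at h1 ⊢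
      push_cast at h1
      have e : ((m : ℤ) + 2) * g j = (m : ℤ) * g j + 2 * g j := by ring
      rw [e] at h1
      have hm0 : (0 : ℤ) ≤ m := Int.natCast_nonneg m
      rcases le_total 0 (g j) with hgj | hgj
      · have : 0 ≤ (m : ℤ) * g j := mul_nonneg hm0 hgj
        omega
      · have : (m : ℤ) * g j ≤ 0 := mul_nonpos_of_nonneg_of_nonpos hm0 hgj
        omega
    omega

/-- The finite conformal generating set. -/
theorem exists_graver {d : ℕ} (Λ : AddSubgroup (Fin d → ℤ)) (i : Fin d) :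
    ∃ G : Finset (Fin d → ℤ), (∀ g ∈ G, g ∈ Λ ∧ g i ≠ 0) ∧
      ∀ x ∈ Λ, (x i).natAbs ≤ ∑ g ∈ G, mult i g x * (g i).natAbs := by
  classical
  obtain ⟨G, hG1, hG2⟩ := exists_conf_basis {x : Fin d → ℤ | x ∈ Λ ∧ x i ≠ 0}
  refine ⟨G, hG1, ?_⟩
  have key : ∀ n : ℕ, ∀ x ∈ Λ, ∑ j, (x j).natAbs = n →
      (x i).natAbs ≤ ∑ g ∈ G, mult i g x * (g i).natAbs := by
    intro n
    induction n using Nat.strong_induction_on with
    | _ n ih =>
      intro x hx hn
      by_cases hxi : x i = 0
      · simp [hxi]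
      · obtain ⟨g, hg, hgx⟩ := hG2 x ⟨hx, hxi⟩
        have hgΛ := hG1 g hg
        have hsub : x - g ∈ Λ := Λ.sub_mem hx hgΛ.1
        have hlt : ∑ j, ((x - g) j).natAbs < n := by
          rw [← hn]
          apply Finset.sum_lt_sum
          · intro j _
            have := hgx j
            simp only [Pi.sub_apply]
            omega
          · refine ⟨i, Finset.mem_univ i, ?_⟩
            have := hgx i
            have h2 := hgΛ.2
            simp only [Pi.sub_apply]
            omega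
        have h1 := ih _ hlt (x - g) hsub rfl
        have h2 : (x i).natAbs = (g i).natAbs + ((x - g) i).natAbs := by
          have := hgx i
          simp only [Pi.sub_apply]
          omega
        rw [h2]
        have h3 : ∑ g' ∈ G, mult i g' (x - g) * (g' i).natAbs + (g i).natAbs ≤
            ∑ g' ∈ G, mult i g' x * (g' i).natAbs := by
          rw [← Finset.add_sum_erase G _ hg, ← Finset.add_sum_erase G (fun g' => mult i g' x * (g' i).natAbs) hg]
          have e1 : mult i g (x - g) * (g i).natAbs + (g i).natAbs ≤ mult i g x * (g i).natAbs := by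
            calc mult i g (x - g) * (g i).natAbs + (g i).natAbs
                = (mult i g (x - g) + 1) * (g i).natAbs := by ring
              _ ≤ _ := Nat.mul_le_mul_right _ (mult_add_one_le i g x hgΛ.2 hgx)
          have e2 : ∑ g' ∈ G.erase g, mult i g' (x - g) * (g' i).natAbs ≤
              ∑ g' ∈ G.erase g, mult i g' x * (g' i).natAbs := by
            apply Finset.sum_le_sum
            intro g' hg'
            apply Nat.mul_le_mul_right
            exact mult_mono i g' _ _ (hG1 g' (Finset.mem_of_mem_erase hg')).2 hgx.sub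
          omega
        omega
  intro x hx
  exact key _ x hx rfl

end Pool.Agent.Lib.MP_15f9af_an
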