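import Mathlib
import Pool.Agent.Lib.MP_15f9af_an.Graver

/-!
# Variance bound for the measures `τ(α)/α!` on lattice classes

For a finite class `X ⊆ ℕ^d` (all differences in `Λ`, closed under exchange moves) and weights
`q(α) = τ(α)/α!` with `τ` multiplicative along exchanges, the variance of `α_i` is at most a
constant (depending only on `Λ`) times its mean.
-/

namespace Pool.Agent.Lib.MP_15f9af_an

open Finset

theorem fact_shift (t : ℕ) : ∀ a b : ℕ, b + 2 * t ≤ a →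
    (a - t).factorial * (b + t).factorial ≤ a.factorial * b.factorial := by
  induction t with
  | zero => intro a b _; simp
  | succ t ih =>
    intro a b h
    obtain ⟨c, rfl⟩ : ∃ c, a = c + 1 := ⟨a - 1, by omega⟩
    have h1 := ih c (b + 1) (by omega)
    have e1 : c + 1 - (t + 1) = c - t := by omega
    have e2 : b + (t + 1) = b + 1 + t := by omega
    rw [e1, e2]
    refine h1.trans ?_
    rw [Nat.factorial_succ b, Nat.factorial_succ c]
    calc c.factorial * ((b + 1) * b.factorial) = (b + 1) * (c.factorial * b.factorial) := by ring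
      _ ≤ (c + 1) * (c.factorial * b.factorial) := Nat.mul_le_mul_right _ (by omega)
      _ = _ := by ring

theorem fact_shift_gain (t s a b : ℕ) (ht : 1 ≤ t) (hs : 2 ≤ s) (h : b + s * t ≤ a) :
    (a + b + s) * ((a - t).factorial * (b + t).factorial) ≤
      (a + b) * (a.factorial * b.factorial) := by
  obtain ⟨r, rfl⟩ : ∃ r, t = r + 1 := ⟨t - 1, by omega⟩
  have hst : 2 * (r + 1) ≤ s * (r + 1) := Nat.mul_le_mul_right _ hs
  have hs1 : s ≤ s * (r + 1) := Nat.le_mul_of_pos_right s (by omega)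
  obtain ⟨c, rfl⟩ : ∃ c, a = c + 1 := ⟨a - 1, by omega⟩
  have h1 := fact_shift r c (b + 1) (by omega)
  have e1 : c + 1 - (r + 1) = c - r := by omega
  have e2 : b + (r + 1) = b + 1 + r := by omega
  rw [e1, e2]
  -- arithmetic core
  have hbs : b + s ≤ c + 1 := by omega
  have core : (c + 1 + b + s) * (b + 1) ≤ (c + 1 + b) * (c + 1) := by
    obtain ⟨u, rfl⟩ : ∃ u, s = u + 2 := ⟨s - 2, by omega⟩
    obtain ⟨w, rfl⟩ : ∃ w, c = b + u + 1 + w := ⟨c - (b + u + 1), by omega⟩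
    nlinarith [Nat.zero_le (b * u), Nat.zero_le (b * w), Nat.zero_le (u * w), Nat.zero_le (w * w),
      Nat.zero_le (u * u)]
  calc (c + 1 + b + s) * ((c - r).factorial * (b + 1 + r).factorial)
      ≤ (c + 1 + b + s) * (c.factorial * (b + 1).factorial) := Nat.mul_le_mul_left _ h1
    _ = ((c + 1 + b + s) * (b + 1)) * (c.factorial * b.factorial) := by
        rw [Nat.factorial_succ b]; ring
    _ ≤ ((c + 1 + b) * (c + 1)) * (c.factorial * b.factorial) := Nat.mul_le_mul_right _ core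
    _ = (c + 1 + b) * ((c + 1).factorial * b.factorial) := by
        rw [Nat.factorial_succ c]; ring

theorem coord_le (a b a' b' s : ℕ) (g : ℤ) (hs : 2 ≤ s) (ha : (a' : ℤ) = a - g)
    (hb : (b' : ℤ) = b + g)
    (h : (0 ≤ (s : ℤ) * g ∧ (s : ℤ) * g ≤ a - b) ∨ ((a : ℤ) - b ≤ s * g ∧ (s : ℤ) * g ≤ 0)) :
    a'.factorial * b'.factorial ≤ a.factorial * b.factorial := by
  have hs0 : (0 : ℤ) < s := by omega
  have hs2 : (2 : ℤ) ≤ s := by omega
  rcases lt_trichotomy g 0 with hg | hg | hg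
  · obtain ⟨t, ht⟩ := Int.eq_ofNat_of_zero_le (show 0 ≤ -g by omega)
    have hgt : g = -(t : ℤ) := by omega
    subst hgt
    have h2 : (2 : ℤ) * t ≤ s * t := mul_le_mul_of_nonneg_right hs2 (by omega)
    have hneg : (s : ℤ) * (-(t : ℤ)) = -((s : ℤ) * t) := by ring
    rw [hneg] at h
    have hpos : (0 : ℤ) < s * t := mul_pos hs0 (by omega)
    have e1 : a' = a + t := by omega
    have e2 : b' = b - t := by omega
    rw [e1, e2, mul_comm, mul_comm a.factorial]
    exact fact_shift t b a (by omega)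
  · subst hg
    have e1 : a' = a := by omega
    have e2 : b' = b := by omega
    rw [e1, e2]
  · obtain ⟨t, rfl⟩ := Int.eq_ofNat_of_zero_le hg.le
    have h2 : (2 : ℤ) * t ≤ s * t := mul_le_mul_of_nonneg_right hs2 (by omega)
    have hpos : (0 : ℤ) < s * t := mul_pos hs0 hg
    have e1 : a' = a - t := by omega
    have e2 : b' = b + t := by omega
    rw [e1, e2]
    exact fact_shift t a b (by omega)

theorem coord_gain (a b a' b' s : ℕ) (g : ℤ) (hg0 : g ≠ 0) (hs : 2 ≤ s) (ha : (a' : ℤ) = a - g)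
    (hb : (b' : ℤ) = b + g)
    (h : (0 ≤ (s : ℤ) * g ∧ (s : ℤ) * g ≤ a - b) ∨ ((a : ℤ) - b ≤ s * g ∧ (s : ℤ) * g ≤ 0)) :
    (a + b + s) * (a'.factorial * b'.factorial) ≤ (a + b) * (a.factorial * b.factorial) := by
  have hs0 : (0 : ℤ) < s := by omega
  rcases lt_or_gt_of_ne hg0 with hg | hg
  · obtain ⟨t, ht⟩ := Int.eq_ofNat_of_zero_le (show 0 ≤ -g by omega)
    have hgt : g = -(t : ℤ) := by omega
    subst hgt
    have hneg : (s : ℤ) * (-(t : ℤ)) = -((s : ℤ) * t) := by ring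
    rw [hneg] at h
    have hpos : (0 : ℤ) < s * t := mul_pos hs0 (by omega)
    have h3 : (a : ℤ) + s * t ≤ b := by omega
    have h4 : a + s * t ≤ b := by exact_mod_cast h3
    have e1 : a' = a + t := by omega
    have e2 : b' = b - t := by omega
    have := fact_shift_gain t s b a (by omega) hs h4
    rw [e1, e2]
    calc (a + b + s) * ((a + t).factorial * (b - t).factorial)
        = (b + a + s) * ((b - t).factorial * (a + t).factorial) := by ring
      _ ≤ _ := this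
      _ = _ := by ring
  · obtain ⟨t, rfl⟩ := Int.eq_ofNat_of_zero_le hg.le
    have hpos : (0 : ℤ) < s * t := mul_pos hs0 hg
    have h3 : (b : ℤ) + s * t ≤ a := by omega
    have h4 : b + s * t ≤ a := by exact_mod_cast h3
    have e1 : a' = a - t := by omega
    have e2 : b' = b + t := by omega
    rw [e1, e2]
    exact fact_shift_gain t s a b (by omega) hs h4

/-- multi-factorial -/
def mfact {d : ℕ} (α : Fin d → ℕ) : ℕ := ∏ j, (α j).factorial

theorem mfact_pos {d : ℕ} (α : Fin d → ℕ) : 0 < mfact α :=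
  Finset.prod_pos fun _ _ => Nat.factorial_pos _

theorem mfact_gain {d : ℕ} (i : Fin d) (α β α' β' : Fin d → ℕ) (g : Fin d → ℤ) (s : ℕ)
    (hgi : g i ≠ 0) (hs : 2 ≤ s) (ha : ∀ j, (α' j : ℤ) = α j - g j)
    (hb : ∀ j, (β' j : ℤ) = β j + g j)
    (h : Conf ((s : ℤ) • g) (fun j => (α j : ℤ) - β j)) :
    (α i + β i + s) * (mfact α' * mfact β') ≤ (α i + β i) * (mfact α * mfact β) := by
  unfold mfact
  rw [← Finset.prod_mul_distrib, ← Finset.prod_mul_distrib,
    ← Finset.mul_prod_erase Finset.univ _ (Finset.mem_univ i),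
    ← Finset.mul_prod_erase Finset.univ (fun j => (α j).factorial * (β j).factorial)
      (Finset.mem_univ i)]
  have h1 : ∏ j ∈ Finset.univ.erase i, ((α' j).factorial * (β' j).factorial) ≤
      ∏ j ∈ Finset.univ.erase i, ((α j).factorial * (β j).factorial) := by
    apply Finset.prod_le_prod' 
    intro j _
    apply coord_le (α j) (β j) (α' j) (β' j) s (g j) hs (ha j) (hb j)
    have := h j
    simpa [Pi.smul_apply, smul_eq_mul] using this
  have h2 : (α i + β i + s) * ((α' i).factorial * (β' i).factorial) ≤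
      (α i + β i) * ((α i).factorial * (β i).factorial) := by
    apply coord_gain (α i) (β i) (α' i) (β' i) s (g i) hgi hs (ha i) (hb i)
    have := h i
    simpa [Pi.smul_apply, smul_eq_mul] using this
  calc (α i + β i + s) * ((α' i).factorial * (β' i).factorial *
        ∏ j ∈ Finset.univ.erase i, ((α' j).factorial * (β' j).factorial))
      = ((α i + β i + s) * ((α' i).factorial * (β' i).factorial)) *
        ∏ j ∈ Finset.univ.erase i, ((α' j).factorial * (β' j).factorial) := by ring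
    _ ≤ ((α i + β i) * ((α i).factorial * (β i).factorial)) *
        ∏ j ∈ Finset.univ.erase i, ((α j).factorial * (β j).factorial) := Nat.mul_le_mul h2 h1
    _ = _ := by ring

/-- difference of two multi-indices, in `ℤ^d` -/
def zdiff {d : ℕ} (α β : Fin d → ℕ) : Fin d → ℤ := fun j => (α j : ℤ) - β j

/-- `X` is a full `Λ`-class. -/
structure IsClass {d : ℕ} (Λ : AddSubgroup (Fin d → ℤ)) (X : Finset (Fin d → ℕ)) : Prop where
  diff : ∀ α ∈ X, ∀ β ∈ X, zdiff α β ∈ Λ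
  move : ∀ α ∈ X, ∀ α' : Fin d → ℕ, zdiff α' α ∈ Λ → α' ∈ X

section Moment

variable {d : ℕ} {Λ : AddSubgroup (Fin d → ℤ)} {X : Finset (Fin d → ℕ)}
  (hX : IsClass Λ X) (τ : (Fin d → ℕ) → ℝ) (hτ0 : ∀ α, 0 ≤ τ α)
  (hτ : ∀ α ∈ X, ∀ β ∈ X, ∀ α' ∈ X, ∀ β' ∈ X, (∀ j, α j + β j = α' j + β' j) →
    τ α * τ β = τ α' * τ β')

include hX hτ0 hτ in
theorem second_moment (i : Fin d) (g : Fin d → ℤ) (hg : g ∈ Λ) (hgi : g i ≠ 0) :
    ∑ p ∈ X ×ˢ X, (τ p.1 / mfact p.1) * (τ p.2 / mfact p.2) *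
        (mult i g (zdiff p.1 p.2) : ℝ) ^ 2 ≤
      4 * ∑ p ∈ X ×ˢ X, (τ p.1 / mfact p.1) * (τ p.2 / mfact p.2) * ((p.1 i : ℝ) + p.2 i) := by
  classical
  set Q : (Fin d → ℕ) × (Fin d → ℕ) → ℝ := fun p => (τ p.1 / mfact p.1) * (τ p.2 / mfact p.2)
    with hQ
  set γ : (Fin d → ℕ) × (Fin d → ℕ) → ℝ := fun p => (p.1 i : ℝ) + p.2 i with hγ
  set s : (Fin d → ℕ) × (Fin d → ℕ) → ℕ := fun p => mult i g (zdiff p.1 p.2) with hs
  have hQ0 : ∀ p, 0 ≤ Q p := fun p => mul_nonneg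
    (div_nonneg (hτ0 _) (Nat.cast_nonneg _)) (div_nonneg (hτ0 _) (Nat.cast_nonneg _))
  have hγ0 : ∀ p, 0 ≤ γ p := fun p => add_nonneg (Nat.cast_nonneg _) (Nat.cast_nonneg _)
  have hsγ : ∀ p, (s p : ℝ) ≤ γ p := by
    intro p
    have h1 := mult_le i g (zdiff p.1 p.2)
    have h2 : (zdiff p.1 p.2 i).natAbs ≤ p.1 i + p.2 i := by
      simp only [zdiff]; omega
    have : s p ≤ p.1 i + p.2 i := h1.trans h2
    simp only [hγ]
    exact_mod_cast this
  set P := X ×ˢ X with hP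
  set P2 := P.filter (fun p => 2 ≤ s p) with hP2
  let e : (Fin d → ℕ) × (Fin d → ℕ) → (Fin d → ℕ) × (Fin d → ℕ) := fun p =>
    (fun j => ((p.1 j : ℤ) - g j).toNat, fun j => ((p.2 j : ℤ) + g j).toNat)
  -- facts on P2
  have hconf : ∀ p ∈ P2, ∀ j, ((e p).1 j : ℤ) = p.1 j - g j ∧ ((e p).2 j : ℤ) = p.2 j + g j := by
    intro p hp j
    have hsp : 2 ≤ s p := (Finset.mem_filter.1 hp).2
    have hc : (0 ≤ (s p : ℤ) * g j ∧ (s p : ℤ) * g j ≤ (p.1 j : ℤ) - p.2 j) ∨
        ((p.1 j : ℤ) - p.2 j ≤ (s p : ℤ) * g j ∧ (s p : ℤ) * g j ≤ 0) :=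
      mult_spec i g (zdiff p.1 p.2) j
    have hs2 : (2 : ℤ) ≤ (s p : ℤ) := by exact_mod_cast hsp
    simp only [e]
    rcases lt_trichotomy (g j) 0 with hgj | hgj | hgj
    · have h2 : (s p : ℤ) * g j ≤ 2 * g j := by nlinarith
      rcases hc with hc | hc
      · omega
      · constructor <;> omega
    · rw [hgj]; constructor <;> simp
    · have h2 : 2 * g j ≤ (s p : ℤ) * g j := by nlinarith
      rcases hc with hc | hc
      · constructor <;> omega
      · omega
  have hmaps : ∀ p ∈ P2, e p ∈ P := by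
    intro p hp
    have hpP := (Finset.mem_filter.1 hp).1
    rw [hP, Finset.mem_product] at hpP ⊢
    have hc := hconf p hp
    refine ⟨hX.move _ hpP.1 _ ?_, hX.move _ hpP.2 _ ?_⟩
    · have : zdiff (e p).1 p.1 = -g := by
        funext j
        simp only [zdiff, Pi.neg_apply]
        have := (hc j).1
        omega
      rw [this]; exact Λ.neg_mem hg
    · have : zdiff (e p).2 p.2 = g := by
        funext j
        simp only [zdiff]
        have := (hc j).2
        omega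
      rw [this]; exact hg
  have hinj : Set.InjOn e (P2 : Set ((Fin d → ℕ) × (Fin d → ℕ))) := by
    intro p hp p' hp' hee
    have hc := hconf p hp
    have hc' := hconf p' hp'
    ext j
    · have h1 := (hc j).1
      have h2 := (hc' j).1
      rw [hee] at h1
      omega
    · have h1 := (hc j).2
      have h2 := (hc' j).2
      rw [hee] at h1
      omega
  -- main pointwise inequality
  have hpt : ∀ p ∈ P2, Q p * (γ p * s p + (s p : ℝ) ^ 2) ≤ Q (e p) * (γ (e p) * (s (e p) + 2)) := by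
    intro p hp
    have hpP := (Finset.mem_filter.1 hp).1
    have hsp : 2 ≤ s p := (Finset.mem_filter.1 hp).2
    have heP := hmaps p hp
    rw [hP, Finset.mem_product] at hpP heP
    have hc := hconf p hp
    have hγe : γ (e p) = γ p := by
      have h1 := (hc i).1
      have h2 := (hc i).2
      have : ((e p).1 i : ℤ) + (e p).2 i = p.1 i + p.2 i := by omega
      simp only [hγ]
      exact_mod_cast this
    have hse : s p ≤ s (e p) + 2 := by
      have h1 := mult_le_sub_two i g (zdiff p.1 p.2) hgi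
      have h2 : zdiff p.1 p.2 - (2 : ℤ) • g = zdiff (e p).1 (e p).2 := by
        funext j
        have h1 := (hc j).1
        have h2 := (hc j).2
        simp only [zdiff, Pi.sub_apply, Pi.smul_apply, smul_eq_mul]
        omega
      rw [h2] at h1
      exact h1
    have hgain := mfact_gain i p.1 p.2 (e p).1 (e p).2 g (s p) hgi hsp (fun j => (hc j).1)
      (fun j => (hc j).2) (mult_spec i g (zdiff p.1 p.2))
    have hττ : τ p.1 * τ p.2 = τ (e p).1 * τ (e p).2 := by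
      apply hτ _ hpP.1 _ hpP.2 _ heP.1 _ heP.2
      intro j
      have h1 := (hc j).1
      have h2 := (hc j).2
      omega
    have hm1 : (0 : ℝ) < (mfact p.1 : ℝ) * mfact p.2 := by
      have := mfact_pos p.1
      have := mfact_pos p.2
      positivity
    have hm2 : (0 : ℝ) < (mfact (e p).1 : ℝ) * mfact (e p).2 := by
      have := mfact_pos (e p).1
      have := mfact_pos (e p).2
      positivity
    have hgainR : (γ p + s p) * ((mfact (e p).1 : ℝ) * mfact (e p).2) ≤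
        γ p * ((mfact p.1 : ℝ) * mfact p.2) := by
      simp only [hγ]
      exact_mod_cast hgain
    have hQp : Q p = τ p.1 * τ p.2 / ((mfact p.1 : ℝ) * mfact p.2) := by
      simp only [hQ]; rw [div_mul_div_comm]
    have hQe : Q (e p) = τ p.1 * τ p.2 / ((mfact (e p).1 : ℝ) * mfact (e p).2) := by
      simp only [hQ]; rw [div_mul_div_comm, hττ]
    have h1 : Q p * (γ p + s p) ≤ Q (e p) * γ p := by
      rw [hQp, hQe, div_mul_eq_mul_div, div_mul_eq_mul_div, div_le_div_iff₀ hm1 hm2]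
      have hττ0 : 0 ≤ τ p.1 * τ p.2 := mul_nonneg (hτ0 _) (hτ0 _)
      nlinarith [mul_le_mul_of_nonneg_left hgainR hττ0]
    have hsR : (0 : ℝ) ≤ s p := Nat.cast_nonneg _
    have hseR : (s p : ℝ) ≤ s (e p) + 2 := by exact_mod_cast hse
    calc Q p * (γ p * s p + (s p : ℝ) ^ 2) = (Q p * (γ p + s p)) * s p := by ring
      _ ≤ (Q (e p) * γ p) * s p := mul_le_mul_of_nonneg_right h1 hsR
      _ ≤ (Q (e p) * γ p) * (s (e p) + 2) :=
          mul_le_mul_of_nonneg_left hseR (mul_nonneg (hQ0 _) (hγ0 _))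
      _ = _ := by rw [hγe]; ring
  have hsum1 : ∑ p ∈ P2, Q p * (γ p * s p + (s p : ℝ) ^ 2) ≤ ∑ p ∈ P, Q p * (γ p * (s p + 2)) := by
    calc ∑ p ∈ P2, Q p * (γ p * s p + (s p : ℝ) ^ 2)
        ≤ ∑ p ∈ P2, Q (e p) * (γ (e p) * (s (e p) + 2)) := Finset.sum_le_sum hpt
      _ = ∑ p ∈ P2.image e, Q p * (γ p * (s p + 2)) := by
          rw [Finset.sum_image hinj]
      _ ≤ _ := by
          apply Finset.sum_le_sum_of_subset_of_nonneg
          · intro p hp
            obtain ⟨p', hp', rfl⟩ := Finset.mem_image.1 hp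
            exact hmaps p' hp'
          · intro p _ _
            exact mul_nonneg (hQ0 _) (mul_nonneg (hγ0 _) (by positivity))
  have hsplit : ∀ f : (Fin d → ℕ) × (Fin d → ℕ) → ℝ,
      ∑ p ∈ P, f p = ∑ p ∈ P2, f p + ∑ p ∈ P.filter (fun p => ¬ 2 ≤ s p), f p := by
    intro f
    rw [hP2, Finset.sum_filter_add_sum_filter_not]
  have hlow : ∑ p ∈ P.filter (fun p => ¬ 2 ≤ s p), Q p * (s p : ℝ) ^ 2 ≤
      ∑ p ∈ P.filter (fun p => ¬ 2 ≤ s p), Q p * γ p := by
    apply Finset.sum_le_sum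
    intro p hp
    have h1 : ¬ 2 ≤ s p := (Finset.mem_filter.1 hp).2
    apply mul_le_mul_of_nonneg_left _ (hQ0 p)
    have h2 : (s p : ℝ) ≤ 1 := by
      have : s p ≤ 1 := by omega
      exact_mod_cast this
    have h3 := hsγ p
    have h4 : (0 : ℝ) ≤ s p := Nat.cast_nonneg _
    nlinarith
  have hlow2 : ∑ p ∈ P.filter (fun p => ¬ 2 ≤ s p), Q p * (γ p * s p) ≤
      ∑ p ∈ P.filter (fun p => ¬ 2 ≤ s p), Q p * γ p := by
    apply Finset.sum_le_sum
    intro p hp
    have h1 : ¬ 2 ≤ s p := (Finset.mem_filter.1 hp).2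
    apply mul_le_mul_of_nonneg_left _ (hQ0 p)
    have h2 : (s p : ℝ) ≤ 1 := by
      have : s p ≤ 1 := by omega
      exact_mod_cast this
    have h3 := hγ0 p
    nlinarith
  have hall : ∑ p ∈ P.filter (fun p => ¬ 2 ≤ s p), Q p * γ p ≤ ∑ p ∈ P, Q p * γ p := by
    apply Finset.sum_le_sum_of_subset_of_nonneg (Finset.filter_subset _ _)
    intro p _ _
    exact mul_nonneg (hQ0 p) (hγ0 p)
  have e1 : ∑ p ∈ P2, Q p * (γ p * s p + (s p : ℝ) ^ 2) =
      ∑ p ∈ P2, Q p * (γ p * s p) + ∑ p ∈ P2, Q p * (s p : ℝ) ^ 2 := by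
    rw [← Finset.sum_add_distrib]
    exact Finset.sum_congr rfl fun p _ => by ring
  have e2 : ∑ p ∈ P, Q p * (γ p * (s p + 2)) =
      ∑ p ∈ P, Q p * (γ p * s p) + 2 * ∑ p ∈ P, Q p * γ p := by
    rw [Finset.mul_sum, ← Finset.sum_add_distrib]
    exact Finset.sum_congr rfl fun p _ => by ring
  have e3 := hsplit (fun p => Q p * (γ p * s p))
  have e4 := hsplit (fun p => Q p * (s p : ℝ) ^ 2)
  have goal : ∑ p ∈ P, Q p * (s p : ℝ) ^ 2 ≤ 4 * ∑ p ∈ P, Q p * γ p := by
    rw [e4]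
    rw [e1, e2, e3] at hsum1
    linarith
  exact goal

end Moment

theorem sum_prod_sq {ι : Type*} (X : Finset ι) (q a : ι → ℝ) :
    ∑ p ∈ X ×ˢ X, q p.1 * q p.2 * (a p.1 - a p.2) ^ 2 =
      2 * ((∑ α ∈ X, q α) * ∑ α ∈ X, q α * a α ^ 2) - 2 * (∑ α ∈ X, q α * a α) ^ 2 := by
  rw [Finset.sum_product]
  have h1 : ∀ x ∈ X, ∑ y ∈ X, q x * q y * (a x - a y) ^ 2 =
      q x * a x ^ 2 * (∑ y ∈ X, q y) - 2 * (q x * a x) * (∑ y ∈ X, q y * a y) +
        q x * ∑ y ∈ X, q y * a y ^ 2 := by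
    intro x _
    rw [Finset.mul_sum, Finset.mul_sum, Finset.mul_sum, ← Finset.sum_sub_distrib,
      ← Finset.sum_add_distrib]
    exact Finset.sum_congr rfl fun y _ => by ring
  rw [Finset.sum_congr rfl h1, Finset.sum_add_distrib, Finset.sum_sub_distrib,
    ← Finset.sum_mul, ← Finset.sum_mul, ← Finset.sum_mul, ← Finset.mul_sum]
  ring

theorem sum_prod_add {ι : Type*} (X : Finset ι) (q a : ι → ℝ) :
    ∑ p ∈ X ×ˢ X, q p.1 * q p.2 * (a p.1 + a p.2) =
      2 * ((∑ α ∈ X, q α) * ∑ α ∈ X, q α * a α) := by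
  rw [Finset.sum_product]
  have h1 : ∀ x ∈ X, ∑ y ∈ X, q x * q y * (a x + a y) =
      q x * a x * (∑ y ∈ X, q y) + q x * ∑ y ∈ X, q y * a y := by
    intro x _
    rw [Finset.mul_sum, Finset.mul_sum, ← Finset.sum_add_distrib]
    exact Finset.sum_congr rfl fun y _ => by ring
  rw [Finset.sum_congr rfl h1, Finset.sum_add_distrib, ← Finset.sum_mul, ← Finset.sum_mul]
  ring

theorem variance_bound {d : ℕ} (Λ : AddSubgroup (Fin d → ℤ)) (i : Fin d) :
    ∃ C : ℝ, 0 ≤ C ∧ ∀ X : Finset (Fin d → ℕ), IsClass Λ X → ∀ τ : (Fin d → ℕ) → ℝ,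
      (∀ α, 0 ≤ τ α) →
      (∀ α ∈ X, ∀ β ∈ X, ∀ α' ∈ X, ∀ β' ∈ X, (∀ j, α j + β j = α' j + β' j) →
        τ α * τ β = τ α' * τ β') →
      ∑ α ∈ X, τ α / mfact α * ((α i : ℝ) -
          (∑ α ∈ X, τ α / mfact α * α i) / ∑ α ∈ X, τ α / mfact α) ^ 2 ≤
        C * ∑ α ∈ X, τ α / mfact α * α i := by
  classical
  obtain ⟨G, hG1, hG2⟩ := exists_graver Λ i
  set C : ℝ := 4 * (G.card : ℝ) * ∑ g ∈ G, (g i : ℝ) ^ 2 with hC
  have hC0 : 0 ≤ C := by positivity
  refine ⟨C, hC0, fun X hX τ hτ0 hτ => ?_⟩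
  set q : (Fin d → ℕ) → ℝ := fun α => τ α / mfact α with hq
  have hq0 : ∀ α, 0 ≤ q α := fun α => div_nonneg (hτ0 _) (Nat.cast_nonneg _)
  set Z := ∑ α ∈ X, q α with hZ
  set B := ∑ α ∈ X, q α * (α i : ℝ) with hB
  set A := ∑ α ∈ X, q α * (α i : ℝ) ^ 2 with hA
  have hmain : ∑ p ∈ X ×ˢ X, q p.1 * q p.2 * ((p.1 i : ℝ) - p.2 i) ^ 2 ≤
      C * ∑ p ∈ X ×ˢ X, q p.1 * q p.2 * ((p.1 i : ℝ) + p.2 i) := by
    have hpt : ∀ p ∈ X ×ˢ X, q p.1 * q p.2 * ((p.1 i : ℝ) - p.2 i) ^ 2 ≤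
        q p.1 * q p.2 * (G.card * ∑ g ∈ G, (g i : ℝ) ^ 2 * (mult i g (zdiff p.1 p.2) : ℝ) ^ 2) := by
      intro p hp
      rw [Finset.mem_product] at hp
      apply mul_le_mul_of_nonneg_left _ (mul_nonneg (hq0 _) (hq0 _))
      have h1 := hG2 (zdiff p.1 p.2) (hX.diff _ hp.1 _ hp.2)
      have h2 : |(p.1 i : ℝ) - p.2 i| ≤ ∑ g ∈ G, (mult i g (zdiff p.1 p.2) : ℝ) * |(g i : ℝ)| := by
        have e1 : ((zdiff p.1 p.2 i).natAbs : ℝ) = |(p.1 i : ℝ) - p.2 i| := by
          rw [Nat.cast_natAbs]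
          simp only [zdiff]
          push_cast
          rfl
        rw [← e1]
        have h3 : ((zdiff p.1 p.2 i).natAbs : ℝ) ≤
            ((∑ g ∈ G, mult i g (zdiff p.1 p.2) * (g i).natAbs : ℕ) : ℝ) := by exact_mod_cast h1
        refine h3.trans (le_of_eq ?_)
        push_cast
        exact Finset.sum_congr rfl fun g _ => by rw [Nat.cast_natAbs]; push_cast; rfl
      calc ((p.1 i : ℝ) - p.2 i) ^ 2 = |(p.1 i : ℝ) - p.2 i| ^ 2 := (sq_abs _).symm
        _ ≤ (∑ g ∈ G, (mult i g (zdiff p.1 p.2) : ℝ) * |(g i : ℝ)|) ^ 2 :=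
            pow_le_pow_left₀ (abs_nonneg _) h2 2
        _ ≤ G.card * ∑ g ∈ G, ((mult i g (zdiff p.1 p.2) : ℝ) * |(g i : ℝ)|) ^ 2 :=
            sq_sum_le_card_mul_sum_sq
        _ = _ := by
            congr 1
            exact Finset.sum_congr rfl fun g _ => by rw [mul_pow, sq_abs]; ring
    calc ∑ p ∈ X ×ˢ X, q p.1 * q p.2 * ((p.1 i : ℝ) - p.2 i) ^ 2
        ≤ ∑ p ∈ X ×ˢ X, q p.1 * q p.2 *
            (G.card * ∑ g ∈ G, (g i : ℝ) ^ 2 * (mult i g (zdiff p.1 p.2) : ℝ) ^ 2) :=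
          Finset.sum_le_sum hpt
      _ = G.card * ∑ g ∈ G, (g i : ℝ) ^ 2 *
            ∑ p ∈ X ×ˢ X, q p.1 * q p.2 * (mult i g (zdiff p.1 p.2) : ℝ) ^ 2 := by
          rw [Finset.mul_sum]
          simp_rw [Finset.mul_sum]
          rw [Finset.sum_comm]
          exact Finset.sum_congr rfl fun g _ => Finset.sum_congr rfl fun p _ => by ring
      _ ≤ G.card * ∑ g ∈ G, (g i : ℝ) ^ 2 *
            (4 * ∑ p ∈ X ×ˢ X, q p.1 * q p.2 * ((p.1 i : ℝ) + p.2 i)) := by
          apply mul_le_mul_of_nonneg_left _ (Nat.cast_nonneg _)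
          apply Finset.sum_le_sum
          intro g hg
          apply mul_le_mul_of_nonneg_left _ (sq_nonneg _)
          exact second_moment hX τ hτ0 hτ i g (hG1 g hg).1 (hG1 g hg).2
      _ = _ := by
          rw [← Finset.sum_mul, hC]
          ring
  rw [sum_prod_sq X q (fun α => (α i : ℝ)), sum_prod_add X q (fun α => (α i : ℝ))] at hmain
  have hmain' : 2 * (Z * A) - 2 * B ^ 2 ≤ C * (2 * (Z * B)) := hmain
  have hB0 : 0 ≤ B := Finset.sum_nonneg fun α _ => mul_nonneg (hq0 _) (Nat.cast_nonneg _)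
  have hZ0 : 0 ≤ Z := Finset.sum_nonneg fun α _ => hq0 _
  have hexp : ∑ α ∈ X, q α * ((α i : ℝ) - B / Z) ^ 2 = A - 2 * (B / Z) * B + (B / Z) ^ 2 * Z := by
    rw [hA, hB, hZ, Finset.mul_sum, Finset.mul_sum, ← Finset.sum_sub_distrib,
      ← Finset.sum_add_distrib]
    exact Finset.sum_congr rfl fun α _ => by ring
  rcases hZ0.eq_or_lt with hz | hz
  · -- Z = 0
    have hqz : ∀ α ∈ X, q α = 0 := by
      intro α hα
      exact (Finset.sum_eq_zero_iff_of_nonneg (fun α _ => hq0 α)).1 hz.symm α hα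
    have h1 : ∑ α ∈ X, q α * ((α i : ℝ) - B / Z) ^ 2 = 0 :=
      Finset.sum_eq_zero fun α hα => by rw [hqz α hα, zero_mul]
    rw [h1]
    exact mul_nonneg hC0 hB0
  · rw [hexp]
    have h2 : A - 2 * (B / Z) * B + (B / Z) ^ 2 * Z = (Z * A - B ^ 2) / Z := by
      field_simp
      ring
    rw [h2, div_le_iff₀ hz]
    nlinarith

end Pool.Agent.Lib.MP_15f9af_an
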