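import Mathlib
import Pool.Agent.Lib.MP_15f9af_an.Variance

/-!
# The Drury–Arveson space `H²_d ⊗ K` in its orthonormal monomial basis

`H²_d` has the orthonormal basis `e_α = sqrt(|α|!/α!) z^α`, so that `H²_d ⊗ K` is the space of
square summable families `(f_α)`, `f_α ∈ K`, the family standing for `∑ f_α e_α`.
-/

namespace Pool.Agent.Lib.MP_15f9af_an

open scoped ENNReal

/-- total degree of a multi-index -/
def deg {d : ℕ} (α : Fin d → ℕ) : ℕ := ∑ j, α j

/-- `α + e_i` -/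
def inc {d : ℕ} (i : Fin d) (α : Fin d → ℕ) : Fin d → ℕ := Function.update α i (α i + 1)

/-- `α - e_i` -/
def dec {d : ℕ} (i : Fin d) (α : Fin d → ℕ) : Fin d → ℕ := Function.update α i (α i - 1)

section basic

variable {d : ℕ}

@[simp] theorem inc_same (i : Fin d) (α : Fin d → ℕ) : inc i α i = α i + 1 := by simp [inc]

theorem inc_ne {i j : Fin d} (h : j ≠ i) (α : Fin d → ℕ) : inc i α j = α j := by simp [inc, h]

@[simp] theorem dec_same (i : Fin d) (α : Fin d → ℕ) : dec i α i = α i - 1 := by simp [dec]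

theorem dec_ne {i j : Fin d} (h : j ≠ i) (α : Fin d → ℕ) : dec i α j = α j := by simp [dec, h]

@[simp] theorem dec_inc (i : Fin d) (α : Fin d → ℕ) : dec i (inc i α) = α := by
  funext j
  by_cases h : j = i
  · subst h; simp
  · rw [dec_ne h, inc_ne h]

theorem inc_dec (i : Fin d) (α : Fin d → ℕ) (h : α i ≠ 0) : inc i (dec i α) = α := by
  funext j
  by_cases hj : j = i
  · subst hj; simp; omega
  · rw [inc_ne hj, dec_ne hj]

theorem inc_injective (i : Fin d) : Function.Injective (inc i) := by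
  intro a b h
  have := congrArg (dec i) h
  simpa using this

theorem dec_injOn (i : Fin d) (a b : Fin d → ℕ) (ha : a i ≠ 0) (hb : b i ≠ 0)
    (h : dec i a = dec i b) : a = b := by
  rw [← inc_dec i a ha, ← inc_dec i b hb, h]

@[simp] theorem deg_inc (i : Fin d) (α : Fin d → ℕ) : deg (inc i α) = deg α + 1 := by
  unfold deg inc
  rw [Finset.sum_update_of_mem (Finset.mem_univ i)]
  rw [← Finset.add_sum_erase Finset.univ α (Finset.mem_univ i)]
  rw [Finset.sdiff_singleton_eq_erase]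
  omega

theorem deg_dec (i : Fin d) (α : Fin d → ℕ) (h : α i ≠ 0) : deg (dec i α) + 1 = deg α := by
  rw [← deg_inc i (dec i α), inc_dec i α h]

theorem le_deg (i : Fin d) (α : Fin d → ℕ) : α i ≤ deg α :=
  Finset.single_le_sum (f := α) (fun _ _ => Nat.zero_le _) (Finset.mem_univ i)

theorem mfact_inc (i : Fin d) (α : Fin d → ℕ) : mfact (inc i α) = (α i + 1) * mfact α := by
  unfold mfact
  rw [← Finset.mul_prod_erase Finset.univ _ (Finset.mem_univ i),
    ← Finset.mul_prod_erase Finset.univ (fun j => (α j).factorial) (Finset.mem_univ i)]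
  rw [inc_same, Nat.factorial_succ]
  have : ∏ x ∈ Finset.univ.erase i, (inc i α x).factorial =
      ∏ x ∈ Finset.univ.erase i, (α x).factorial :=
    Finset.prod_congr rfl fun x hx => by rw [inc_ne (Finset.ne_of_mem_erase hx)]
  rw [this]
  ring

end basic

section wcomp

variable {ι : Type*} {K : Type*} [NormedAddCommGroup K] [InnerProductSpace ℂ K]

theorem wcomp_sum_le (w : ι → ℝ) (σ : ι → ι) (hw : ∀ a, |w a| ≤ 1)
    (hσ : ∀ a b, w a ≠ 0 → w b ≠ 0 → σ a = σ b → a = b) (f : lp (fun _ : ι => K) 2)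
    (s : Finset ι) : ∑ a ∈ s, ‖((w a : ℝ) : ℂ) • f (σ a)‖ ^ (2 : ℝ≥0∞).toReal ≤
      ‖f‖ ^ (2 : ℝ≥0∞).toReal := by
  classical
  have h2 : (0 : ℝ) < (2 : ℝ≥0∞).toReal := by norm_num
  have h1 : ∑ a ∈ s, ‖((w a : ℝ) : ℂ) • f (σ a)‖ ^ (2 : ℝ≥0∞).toReal ≤
      ∑ a ∈ s.filter (fun a => w a ≠ 0), ‖f (σ a)‖ ^ (2 : ℝ≥0∞).toReal := by
    rw [Finset.sum_filter]
    apply Finset.sum_le_sum
    intro a _
    by_cases h : w a = 0
    · simp [h]
    · rw [if_pos h]
      apply Real.rpow_le_rpow (norm_nonneg _) _ h2.le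
      rw [norm_smul, Complex.norm_real, Real.norm_eq_abs]
      exact mul_le_of_le_one_left (norm_nonneg _) (hw a)
  refine h1.trans ?_
  have hinj : Set.InjOn σ (s.filter (fun a => w a ≠ 0) : Set ι) := by
    intro a ha b hb hab
    have ha' := (Finset.mem_filter.1 ha).2
    have hb' := (Finset.mem_filter.1 hb).2
    exact hσ a b ha' hb' hab
  rw [← Finset.sum_image (f := fun b => ‖f b‖ ^ (2 : ℝ≥0∞).toReal) hinj]
  exact lp.sum_rpow_le_norm_rpow h2 f _

/-- The weighted composition operator `(wcomp f)_a = w_a f_{σ(a)}`. -/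
noncomputable def wcomp (w : ι → ℝ) (σ : ι → ι) (hw : ∀ a, |w a| ≤ 1)
    (hσ : ∀ a b, w a ≠ 0 → w b ≠ 0 → σ a = σ b → a = b) :
    lp (fun _ : ι => K) 2 →L[ℂ] lp (fun _ : ι => K) 2 :=
  LinearMap.mkContinuous
    { toFun := fun f => ⟨fun a => ((w a : ℝ) : ℂ) • f (σ a),
        memℓp_gen' (wcomp_sum_le w σ hw hσ f)⟩
      map_add' := by
        intro f g
        ext a
        simp only [lp.coeFn_add, Pi.add_apply, smul_add]
      map_smul' := by
        intro c f
        ext a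
        simp only [lp.coeFn_smul, Pi.smul_apply, RingHom.id_apply]
        rw [smul_comm] }
    1 (by
      intro f
      rw [one_mul]
      apply lp.norm_le_of_forall_sum_le (by norm_num) (norm_nonneg _)
      intro s
      exact wcomp_sum_le w σ hw hσ f s)

@[simp] theorem wcomp_apply (w : ι → ℝ) (σ : ι → ι) (hw : ∀ a, |w a| ≤ 1)
    (hσ : ∀ a b, w a ≠ 0 → w b ≠ 0 → σ a = σ b → a = b) (f : lp (fun _ : ι => K) 2) (a : ι) :
    wcomp w σ hw hσ f a = ((w a : ℝ) : ℂ) • f (σ a) := rfl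

theorem wcomp_norm_le (w : ι → ℝ) (σ : ι → ι) (hw : ∀ a, |w a| ≤ 1)
    (hσ : ∀ a b, w a ≠ 0 → w b ≠ 0 → σ a = σ b → a = b) (f : lp (fun _ : ι => K) 2) :
    ‖wcomp w σ hw hσ f‖ ≤ ‖f‖ := by
  have h := (wcomp (K := K) w σ hw hσ).le_opNorm f
  have h1 : ‖wcomp (K := K) w σ hw hσ‖ ≤ 1 := LinearMap.mkContinuous_norm_le _ zero_le_one _
  calc _ ≤ _ := h
    _ ≤ 1 * ‖f‖ := mul_le_mul_of_nonneg_right h1 (norm_nonneg _)
    _ = _ := one_mul _

end wcomp

variable {d : ℕ} {K : Type*} [NormedAddCommGroup K] [InnerProductSpace ℂ K]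

/-- The `K`-valued Drury–Arveson space, in coordinates with respect to the orthonormal basis
`e_α = sqrt(|α|!/α!) z^α`. -/
abbrev DA (d : ℕ) (K : Type*) [NormedAddCommGroup K] : Type _ := lp (fun _ : Fin d → ℕ => K) 2

theorem ratio_abs_le (a b : ℕ) (h : a ≤ b) : |Real.sqrt ((a : ℝ) / b)| ≤ 1 := by
  rw [abs_of_nonneg (Real.sqrt_nonneg _), Real.sqrt_le_one]
  rcases Nat.eq_zero_or_pos b with hb | hb
  · subst hb; simp
  · rw [div_le_one (by exact_mod_cast hb)]
    exact_mod_cast h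

/-- Multiplication by the coordinate function `z_i` on `H²_d ⊗ K`:
`M_{z_i} e_α = sqrt((α_i+1)/(|α|+1)) e_{α+e_i}`. -/
noncomputable def Mz (i : Fin d) : DA d K →L[ℂ] DA d K :=
  wcomp (fun α => Real.sqrt ((α i : ℝ) / deg α)) (dec i)
    (fun α => ratio_abs_le _ _ (le_deg i α))
    (fun a b ha hb h => dec_injOn i a b (fun h0 => ha (by simp [h0])) (fun h0 => hb (by simp [h0])) h)

/-- The adjoint of `Mz i`. -/
noncomputable def Dz (i : Fin d) : DA d K →L[ℂ] DA d K :=
  wcomp (fun α => Real.sqrt (((α i + 1 : ℕ) : ℝ) / ((deg α + 1 : ℕ) : ℝ))) (inc i)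
    (fun α => ratio_abs_le _ _ (Nat.succ_le_succ (le_deg i α)))
    (fun _ _ _ _ h => inc_injective i h)

theorem Mz_apply (i : Fin d) (f : DA d K) (α : Fin d → ℕ) :
    Mz i f α = ((Real.sqrt ((α i : ℝ) / deg α) : ℝ) : ℂ) • f (dec i α) := rfl

theorem Dz_apply (i : Fin d) (f : DA d K) (α : Fin d → ℕ) :
    Dz i f α = ((Real.sqrt (((α i + 1 : ℕ) : ℝ) / ((deg α + 1 : ℕ) : ℝ)) : ℝ) : ℂ) •
      f (inc i α) := rfl

theorem Mz_apply_inc (i : Fin d) (f : DA d K) (α : Fin d → ℕ) :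
    Mz i f (inc i α) = ((Real.sqrt (((α i + 1 : ℕ) : ℝ) / ((deg α + 1 : ℕ) : ℝ)) : ℝ) : ℂ) •
      f α := by
  rw [Mz_apply, dec_inc, inc_same, deg_inc]

theorem Mz_apply_zero (i : Fin d) (f : DA d K) (α : Fin d → ℕ) (h : α i = 0) :
    Mz i f α = 0 := by
  rw [Mz_apply, h]; simp

theorem norm_Mz_le (i : Fin d) (f : DA d K) : ‖Mz i f‖ ≤ ‖f‖ := wcomp_norm_le _ _ _ _ f

theorem norm_Dz_le (i : Fin d) (f : DA d K) : ‖Dz i f‖ ≤ ‖f‖ := wcomp_norm_le _ _ _ _ f

theorem inner_Dz (i : Fin d) (f g : DA d K) : inner ℂ (Dz i f) g = inner ℂ f (Mz i g) := by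
  rw [lp.inner_eq_tsum, lp.inner_eq_tsum]
  rw [← (inc_injective i).tsum_eq (f := fun β => inner ℂ (f β) (Mz i g β))]
  · apply tsum_congr
    intro α
    rw [Dz_apply, Mz_apply_inc, inner_smul_left, inner_smul_right, Complex.conj_ofReal]
  · intro β hβ
    by_cases h : β i = 0
    · exfalso
      apply hβ
      simp only
      rw [Mz_apply_zero i g β h, inner_zero_right]
    · exact ⟨dec i β, inc_dec i β h⟩

theorem inner_Mz (i : Fin d) (f g : DA d K) : inner ℂ (Mz i f) g = inner ℂ f (Dz i g) := by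
  rw [← inner_conj_symm, ← inner_Dz, inner_conj_symm]

/-- the weight `‖z^α‖² = α!/|α|!` -/
noncomputable def zw (α : Fin d → ℕ) : ℝ := (mfact α : ℝ) / (deg α).factorial

theorem zw_pos (α : Fin d → ℕ) : 0 < zw α := by
  unfold zw
  have := mfact_pos α
  have := Nat.factorial_pos (deg α)
  positivity

theorem zw_inc (i : Fin d) (α : Fin d → ℕ) :
    zw (inc i α) = zw α * (((α i + 1 : ℕ) : ℝ) / ((deg α + 1 : ℕ) : ℝ)) := by
  unfold zw
  rw [mfact_inc, deg_inc, Nat.factorial_succ]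
  have h1 : ((deg α).factorial : ℝ) ≠ 0 := by exact_mod_cast (Nat.factorial_pos _).ne'
  have h2 : ((deg α + 1 : ℕ) : ℝ) ≠ 0 := by positivity
  push_cast
  push_cast at h2
  field_simp

/-- The `K`-valued monomial `z^α ⊗ v`, i.e. `sqrt(α!/|α|!) e_α ⊗ v`. -/
noncomputable def mono (α : Fin d → ℕ) (v : K) : DA d K :=
  open Classical in lp.single 2 α (((Real.sqrt (zw α) : ℝ) : ℂ) • v)

theorem mono_apply_self (α : Fin d → ℕ) (v : K) :
    (mono α v : DA d K) α = ((Real.sqrt (zw α) : ℝ) : ℂ) • v := by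
  classical
  unfold mono
  exact lp.single_apply_self _ _ _

theorem mono_apply_ne (α β : Fin d → ℕ) (v : K) (h : β ≠ α) :
    (mono α v : DA d K) β = 0 := by
  classical
  unfold mono
  exact lp.single_apply_ne _ _ _ h

theorem Mz_mono (i : Fin d) (α : Fin d → ℕ) (v : K) :
    Mz i (mono α v : DA d K) = mono (inc i α) v := by
  ext β
  by_cases hβ : β = inc i α
  · subst hβ
    rw [Mz_apply_inc, mono_apply_self, mono_apply_self, smul_smul, zw_inc,
      Real.sqrt_mul (zw_pos α).le]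
    congr 1
    push_cast
    ring
  · rw [mono_apply_ne _ _ _ hβ]
    by_cases h0 : β i = 0
    · exact Mz_apply_zero i _ β h0
    · rw [Mz_apply, mono_apply_ne, smul_zero]
      intro h
      exact hβ (by rw [← h, inc_dec i β h0])

/-- the coefficient functional: `F f α` satisfies `⟪z^α ⊗ v, f⟫ = ⟪v, F f α⟫`. -/
noncomputable def coef (f : DA d K) (α : Fin d → ℕ) : K := ((Real.sqrt (zw α) : ℝ) : ℂ) • f α

theorem inner_mono (α : Fin d → ℕ) (v : K) (f : DA d K) :
    inner ℂ (mono α v) f = inner ℂ v (coef f α) := by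
  classical
  unfold mono coef
  rw [lp.inner_single_left, inner_smul_left, inner_smul_right, Complex.conj_ofReal]

/-- Restriction to the degrees satisfying `p`. -/
noncomputable def cut (p : ℕ → Prop) : DA d K →L[ℂ] DA d K :=
  open Classical in
  wcomp (fun α => if p (deg α) then 1 else 0) id
    (fun α => by split_ifs <;> simp) (fun _ _ _ _ h => h)

theorem cut_apply_pos (p : ℕ → Prop) (f : DA d K) (α : Fin d → ℕ) (h : p (deg α)) :
    cut p f α = f α := by
  classical
  unfold cut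
  rw [wcomp_apply, if_pos h]
  simp

theorem cut_apply_neg (p : ℕ → Prop) (f : DA d K) (α : Fin d → ℕ) (h : ¬ p (deg α)) :
    cut p f α = 0 := by
  classical
  unfold cut
  rw [wcomp_apply, if_neg h]
  simp

/-- `P_n ⊗ K`: the homogeneous polynomials of degree `n`, i.e. the elements all of whose
coefficients in degrees `≠ n` vanish. -/
def homog (d : ℕ) (K : Type*) [NormedAddCommGroup K] [InnerProductSpace ℂ K] (n : ℕ) :
    Submodule ℂ (DA d K) where
  carrier := {f | ∀ α, deg α ≠ n → f α = 0}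
  add_mem' := by
    intro f g hf hg α h
    simp only [lp.coeFn_add, Pi.add_apply]
    rw [hf α h, hg α h, add_zero]
  zero_mem' := by
    intro α _
    simp
  smul_mem' := by
    intro c f hf α h
    simp only [lp.coeFn_smul, Pi.smul_apply]
    rw [hf α h, smul_zero]

theorem mem_homog {n : ℕ} {f : DA d K} : f ∈ homog d K n ↔ ∀ α, deg α ≠ n → f α = 0 := Iff.rfl

end Pool.Agent.Lib.MP_15f9af_an
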