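import Mathlib
import Pool.Agent.Lib.MP_15f9af_an.Space

/-!
# Degree truncations and graded submodules
-/

namespace Pool.Agent.Lib.MP_15f9af_an

open scoped ENNReal

variable {d : ℕ} {K : Type*} [NormedAddCommGroup K] [InnerProductSpace ℂ K]

theorem norm_cut_le (p : ℕ → Prop) (f : DA d K) : ‖cut p f‖ ≤ ‖f‖ := by
  classical
  unfold cut
  exact wcomp_norm_le _ _ _ _ f

theorem cut_cut_self (p : ℕ → Prop) (f : DA d K) : cut p (cut p f) = cut p f := by
  ext α
  by_cases h : p (deg α)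
  · rw [cut_apply_pos _ _ _ h]
  · rw [cut_apply_neg _ _ _ h, cut_apply_neg _ _ _ h]

theorem cut_add_cut_not (p : ℕ → Prop) (f : DA d K) :
    cut p f + cut (fun n => ¬ p n) f = f := by
  ext α
  simp only [lp.coeFn_add, Pi.add_apply]
  by_cases h : p (deg α)
  · rw [cut_apply_pos _ _ _ h, cut_apply_neg (fun n => ¬ p n) _ _ (by simpa using h), add_zero]
  · rw [cut_apply_neg _ _ _ h, cut_apply_pos (fun n => ¬ p n) _ _ h, zero_add]

theorem inner_cut_left (p : ℕ → Prop) (f g : DA d K) :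
    inner ℂ (cut p f) g = inner ℂ f (cut p g) := by
  rw [lp.inner_eq_tsum, lp.inner_eq_tsum]
  apply tsum_congr
  intro α
  by_cases h : p (deg α)
  · rw [cut_apply_pos _ _ _ h, cut_apply_pos _ _ _ h]
  · rw [cut_apply_neg _ _ _ h, cut_apply_neg _ _ _ h, inner_zero_left, inner_zero_right]

theorem cut_Mz (i : Fin d) (n : ℕ) (f : DA d K) :
    cut (· = n + 1) (Mz i f) = Mz i (cut (· = n) f) := by
  ext α
  by_cases h0 : α i = 0
  · rw [Mz_apply_zero i _ α h0]
    by_cases h : deg α = n + 1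
    · rw [cut_apply_pos _ _ _ h, Mz_apply_zero i _ α h0]
    · rw [cut_apply_neg _ _ _ h]
  · have hd := deg_dec i α h0
    by_cases h : deg α = n + 1
    · rw [cut_apply_pos _ _ _ h, Mz_apply, Mz_apply, cut_apply_pos]
      omega
    · rw [cut_apply_neg _ _ _ h, Mz_apply, cut_apply_neg, smul_zero]
      omega

theorem cut_zero_Mz (i : Fin d) (f : DA d K) : cut (· = 0) (Mz i f) = 0 := by
  ext α
  by_cases h : deg α = 0
  · rw [cut_apply_pos _ _ _ h, Mz_apply_zero]
    · rfl
    · have := le_deg i α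
      omega
  · rw [cut_apply_neg _ _ _ h]
    rfl

/-- support in degrees `≥ m` -/
def Supp (m : ℕ) (f : DA d K) : Prop := ∀ α, deg α < m → f α = 0

theorem Supp.cut (m : ℕ) (f : DA d K) : Supp m (cut (fun n => m ≤ n) f) := by
  intro α h
  exact cut_apply_neg _ _ _ (by omega)

theorem Supp.Mz {m : ℕ} {f : DA d K} (h : Supp m f) (i : Fin d) : Supp (m + 1) (Mz i f) := by
  intro α hα
  by_cases h0 : α i = 0
  · exact Mz_apply_zero i _ α h0
  · have hd := deg_dec i α h0
    rw [Mz_apply, h _ (by omega), smul_zero]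

theorem Supp.Dz {m : ℕ} {f : DA d K} (h : Supp (m + 1) f) (i : Fin d) : Supp m (Dz i f) := by
  intro α hα
  rw [Dz_apply, h _ (by rw [deg_inc]; omega), smul_zero]

theorem Supp.mono {m n : ℕ} {f : DA d K} (h : Supp n f) (hmn : m ≤ n) : Supp m f :=
  fun α hα => h α (lt_of_lt_of_le hα hmn)

theorem Supp.sub {m : ℕ} {f g : DA d K} (hf : Supp m f) (hg : Supp m g) : Supp m (f - g) := by
  intro α hα
  simp only [lp.coeFn_sub, Pi.sub_apply]
  rw [hf α hα, hg α hα, sub_zero]

theorem Supp.smul {m : ℕ} {f : DA d K} (hf : Supp m f) (c : ℂ) : Supp m (c • f) := by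
  intro α hα
  simp only [lp.coeFn_smul, Pi.smul_apply]
  rw [hf α hα, smul_zero]

theorem Supp.cut_eq {m : ℕ} {f : DA d K} (h : Supp m f) :
    MP_15f9af_an.cut (fun n => m ≤ n) f = f := by
  ext α
  by_cases hα : m ≤ deg α
  · rw [cut_apply_pos _ _ _ hα]
  · rw [cut_apply_neg _ _ _ hα, h α (by omega)]

theorem homog_supp {n : ℕ} {f : DA d K} (h : f ∈ homog d K n) : Supp n f :=
  fun α hα => h α (by omega)

theorem cut_mem_homog (n : ℕ) (f : DA d K) : cut (· = n) f ∈ homog d K n :=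
  fun α hα => cut_apply_neg _ _ _ hα

theorem cut_homog {n : ℕ} {f : DA d K} (h : f ∈ homog d K n) : cut (· = n) f = f := by
  ext α
  by_cases hα : deg α = n
  · rw [cut_apply_pos _ _ _ hα]
  · rw [cut_apply_neg _ _ _ hα, h α hα]

theorem norm_sq_hasSum (f : DA d K) : HasSum (fun α => ‖f α‖ ^ 2) (‖f‖ ^ 2) := by
  have h := lp.hasSum_norm (p := 2) (by norm_num) f
  simpa using h

/-- Parseval by degree -/
theorem parseval (f : DA d K) : HasSum (fun n => ‖cut (· = n) f‖ ^ 2) (‖f‖ ^ 2) := by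
  have h1 : HasSum ((fun α => ‖f α‖ ^ 2) ∘ (Equiv.sigmaFiberEquiv (deg (d := d)))) (‖f‖ ^ 2) :=
    (Equiv.sigmaFiberEquiv (deg (d := d))).hasSum_iff.2 (norm_sq_hasSum f)
  have h2 : ∀ n : ℕ, HasSum (fun α : {α : Fin d → ℕ // deg α = n} => ‖f α‖ ^ 2)
      (‖cut (· = n) f‖ ^ 2) := by
    intro n
    have h3 := norm_sq_hasSum (cut (· = n) f)
    have h4 : (Function.support fun α => ‖cut (· = n) f α‖ ^ 2) ⊆ {α : Fin d → ℕ | deg α = n} := by
      intro α hα
      by_contra hne
      apply hα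
      simp only
      rw [cut_apply_neg _ _ _ hne]
      simp
    have h5 := (hasSum_subtype_iff_of_support_subset h4).2 h3
    refine h5.congr_fun ?_ |> fun h => h
    intro x
    have : deg (x : Fin d → ℕ) = n := x.2
    simp only [Function.comp]
    rw [cut_apply_pos (· = n) f x this]
  exact HasSum.sigma h1 h2

end Pool.Agent.Lib.MP_15f9af_an
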