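import Mathlib
import Pool.Agent.Lib.MP_15f9af_an.Cut

/-!
# Graded submodules, compressions and their commutators
-/

namespace Pool.Agent.Lib.MP_15f9af_an

open scoped ENNReal

variable {d : ℕ} {K : Type*} [NormedAddCommGroup K] [InnerProductSpace ℂ K]

/-- A graded submodule of `H²_d ⊗ K`: a closed subspace, invariant under all `M_{z_i}`, which is the
closure of the sum of its homogeneous parts `L_n = L ∩ (P_n ⊗ K)`. -/
structure IsGradedSubmodule (L : Submodule ℂ (DA d K)) : Prop where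
  closed : IsClosed (L : Set (DA d K))
  invariant : ∀ i : Fin d, ∀ f ∈ L, Mz i f ∈ L
  graded : L = (⨆ n, L ⊓ homog d K n).topologicalClosure

/-- `H_n = (P_n ⊗ K) ⊖ L_n` -/
noncomputable def Hpart (L : Submodule ℂ (DA d K)) (n : ℕ) : Submodule ℂ (DA d K) :=
  homog d K n ⊓ (L ⊓ homog d K n)ᗮ

theorem cut_mem_of_mem {L : Submodule ℂ (DA d K)} (hL : IsGradedSubmodule L) (p : ℕ → Prop)
    {f : DA d K} (hf : f ∈ L) : cut p f ∈ L := by
  rw [hL.graded] at hf
  have hclosed : IsClosed (L : Set (DA d K)) := hL.closed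
  have h1 : ∀ g ∈ (⨆ n, L ⊓ homog d K n), cut p g ∈ L := by
    intro g hg
    induction hg using Submodule.iSup_induction' with
    | mem n x hx =>
      by_cases hp : p n
      · have : cut p x = x := by
          ext α
          by_cases h : p (deg α)
          · rw [cut_apply_pos _ _ _ h]
          · rw [cut_apply_neg _ _ _ h]
            symm
            apply hx.2
            intro h'
            exact h (h' ▸ hp)
        rw [this]; exact hx.1
      · have : cut p x = 0 := by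
          ext α
          by_cases h : p (deg α)
          · rw [cut_apply_pos _ _ _ h]
            apply hx.2
            intro h'
            exact hp (h' ▸ h)
          · rw [cut_apply_neg _ _ _ h]
            rfl
        rw [this]; exact L.zero_mem
    | zero => rw [map_zero]; exact L.zero_mem
    | add x y _ _ hx hy => rw [map_add]; exact L.add_mem hx hy
  have h2 : f ∈ closure ((⨆ n, L ⊓ homog d K n : Submodule ℂ (DA d K)) : Set (DA d K)) := by
    rw [← Submodule.topologicalClosure_coe]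
    exact hf
  have h3 : (closure ((⨆ n, L ⊓ homog d K n : Submodule ℂ (DA d K)) : Set (DA d K))) ⊆
      (cut p) ⁻¹' (L : Set (DA d K)) := by
    apply closure_minimal
    · intro g hg
      exact h1 g hg
    · exact hclosed.preimage (cut p).continuous
  exact h3 h2

theorem cut_mem_orthogonal {L : Submodule ℂ (DA d K)} (hL : IsGradedSubmodule L) (p : ℕ → Prop)
    {f : DA d K} (hf : f ∈ Lᗮ) : cut p f ∈ Lᗮ := by
  rw [Submodule.mem_orthogonal] at hf ⊢
  intro u hu
  rw [← inner_cut_left]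
  exact hf _ (cut_mem_of_mem hL p hu)

theorem Dz_mem_orthogonal {L : Submodule ℂ (DA d K)} (hL : IsGradedSubmodule L) (i : Fin d)
    {f : DA d K} (hf : f ∈ Lᗮ) : Dz i f ∈ Lᗮ := by
  rw [Submodule.mem_orthogonal] at hf ⊢
  intro u hu
  rw [← inner_Mz]
  exact hf _ (hL.invariant i u hu)

theorem Hpart_eq {L : Submodule ℂ (DA d K)} (hL : IsGradedSubmodule L) (n : ℕ) :
    Hpart L n = Lᗮ ⊓ homog d K n := by
  ext f
  constructor
  · rintro ⟨h1, h2⟩
    refine ⟨?_, h1⟩
    rw [SetLike.mem_coe, Submodule.mem_orthogonal] at h2 ⊢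
    intro u hu
    have h3 : inner ℂ (cut (· = n) u) f = 0 :=
      h2 _ ⟨cut_mem_of_mem hL _ hu, cut_mem_homog n u⟩
    rw [inner_cut_left, cut_homog h1] at h3
    exact h3
  · rintro ⟨h1, h2⟩
    refine ⟨h2, ?_⟩
    rw [SetLike.mem_coe, Submodule.mem_orthogonal] at h1 ⊢
    intro u hu
    exact h1 u hu.1

/-! ### Commutation relation in coordinates -/

theorem sqrt_ratio_mul (a b n : ℕ) (hn : n ≠ 0) :
    ((n : ℕ) : ℂ) * (((Real.sqrt ((a : ℝ) / (n : ℝ)) : ℝ) : ℂ) *
      ((Real.sqrt ((b : ℝ) / (n : ℝ)) : ℝ) : ℂ)) = ((Real.sqrt ((a : ℝ) * b) : ℝ) : ℂ) := by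
  have hn0 : (0 : ℝ) < n := by exact_mod_cast Nat.pos_of_ne_zero hn
  have h : (n : ℝ) * (Real.sqrt ((a : ℝ) / n) * Real.sqrt ((b : ℝ) / n)) =
      Real.sqrt ((a : ℝ) * b) := by
    rw [Real.sqrt_div (Nat.cast_nonneg a), Real.sqrt_div (Nat.cast_nonneg b),
      Real.sqrt_mul (Nat.cast_nonneg a)]
    have hs : Real.sqrt (n : ℝ) * Real.sqrt (n : ℝ) = n := Real.mul_self_sqrt hn0.le
    have hs0 : Real.sqrt (n : ℝ) ≠ 0 := (Real.sqrt_pos.2 hn0).ne'
    field_simp
    rw [sq, hs]
    ring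
  exact_mod_cast h

theorem DM_same (i : Fin d) (f : DA d K) (α : Fin d → ℕ) :
    ((deg α + 1 : ℕ) : ℂ) • Dz i (Mz i f) α = ((α i + 1 : ℕ) : ℂ) • f α := by
  rw [Dz_apply, Mz_apply_inc, smul_smul, smul_smul, mul_assoc, sqrt_ratio_mul _ _ _ (by omega)]
  congr 1
  rw [Real.sqrt_mul_self (Nat.cast_nonneg _)]
  norm_cast

theorem MD_same (i : Fin d) (f : DA d K) (α : Fin d → ℕ) :
    ((deg α : ℕ) : ℂ) • Mz i (Dz i f) α = ((α i : ℕ) : ℂ) • f α := by
  by_cases h0 : α i = 0
  · rw [Mz_apply_zero i _ α h0, smul_zero, h0, Nat.cast_zero, zero_smul]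
  · have hd := deg_dec i α h0
    rw [Mz_apply, Dz_apply, inc_dec i α h0, smul_smul, smul_smul, mul_assoc, dec_same, hd]
    have e : α i - 1 + 1 = α i := by omega
    rw [e, sqrt_ratio_mul _ _ _ (by omega)]
    congr 1
    rw [Real.sqrt_mul_self (Nat.cast_nonneg _)]
    norm_cast

theorem DM_ne {i j : Fin d} (hij : i ≠ j) (f : DA d K) (α : Fin d → ℕ) :
    ((deg α + 1 : ℕ) : ℂ) • Dz j (Mz i f) α = ((deg α : ℕ) : ℂ) • Mz i (Dz j f) α := by
  by_cases h0 : α i = 0
  · rw [Mz_apply_zero i _ α h0, smul_zero, Dz_apply, Mz_apply_zero i, smul_zero, smul_zero]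
    rw [inc_ne hij]; exact h0
  · have hd := deg_dec i α h0
    rw [Dz_apply, Mz_apply, Mz_apply, Dz_apply, smul_smul, smul_smul, smul_smul, smul_smul,
      mul_assoc, mul_assoc, hd, inc_ne hij, dec_ne hij.symm, deg_inc, sqrt_ratio_mul _ _ _ (by omega),
      sqrt_ratio_mul _ _ _ (by omega)]
    have e : dec i (inc j α) = inc j (dec i α) := by
      funext l
      by_cases hl : l = i
      · subst hl
        rw [dec_same, inc_ne hij, inc_ne hij, dec_same]
      · rw [dec_ne hl]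
        by_cases hl' : l = j
        · subst hl'
          rw [inc_same, inc_same, dec_ne hl]
        · rw [inc_ne hl', inc_ne hl', dec_ne hl]
    rw [e, mul_comm ((α i : ℝ))]

theorem comm_coord (i j : Fin d) (f : DA d K) (α : Fin d → ℕ) :
    ((deg α + 1 : ℕ) : ℂ) • (Mz i (Dz j f) - Dz j (Mz i f)) α =
      (Mz i (Dz j f) - (if i = j then (1 : ℂ) else 0) • f) α := by
  simp only [lp.coeFn_sub, lp.coeFn_smul, Pi.sub_apply, Pi.smul_apply]
  rw [smul_sub]
  have e1 : ((deg α + 1 : ℕ) : ℂ) • Mz i (Dz j f) α =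
      ((deg α : ℕ) : ℂ) • Mz i (Dz j f) α + Mz i (Dz j f) α := by
    rw [Nat.cast_succ, add_smul, one_smul]
  by_cases hij : i = j
  · subst hij
    rw [DM_same, e1, MD_same, if_pos rfl, one_smul, Nat.cast_succ, add_smul, one_smul]
    abel
  · rw [DM_ne hij, e1, if_neg hij, zero_smul]
    abel

theorem comm_norm_le (i j : Fin d) (m : ℕ) (f : DA d K) (hf : Supp m f) :
    ((m : ℝ) + 1) * ‖Mz i (Dz j f) - Dz j (Mz i f)‖ ≤ 2 * ‖f‖ := by
  classical
  set E := Mz i (Dz j f) - Dz j (Mz i f) with hE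
  set G := Mz i (Dz j f) - (if i = j then (1 : ℂ) else 0) • f with hG
  have hGE : ∀ α, ((deg α + 1 : ℕ) : ℂ) • E α = G α := comm_coord i j f
  have hGs : Supp m G := by
    apply Supp.sub
    · rcases Nat.eq_zero_or_pos m with h0 | h0
      · subst h0
        intro α hα
        omega
      · obtain ⟨k, rfl⟩ : ∃ k, m = k + 1 := ⟨m - 1, by omega⟩
        exact (hf.Dz j).Mz i
    · exact hf.smul _
  let w : (Fin d → ℕ) → ℝ := fun α => if m ≤ deg α then ((m : ℝ) + 1) / (deg α + 1) else 0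
  have hw : ∀ α, |w α| ≤ 1 := by
    intro α
    simp only [w]
    split_ifs with h
    · rw [abs_of_nonneg (by positivity), div_le_one (by positivity)]
      have : (m : ℝ) ≤ deg α := by exact_mod_cast h
      linarith
    · simp
  have hWG : wcomp (K := K) w id hw (fun _ _ _ _ h => h) G = ((m : ℂ) + 1) • E := by
    ext α
    rw [wcomp_apply]
    simp only [lp.coeFn_smul, Pi.smul_apply, id]
    by_cases h : m ≤ deg α
    · simp only [w, if_pos h]
      rw [← hGE α, smul_smul]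
      congr 1
      have h2 : ((deg α : ℂ) + 1) ≠ 0 := by exact_mod_cast Nat.succ_ne_zero (deg α)
      push_cast
      field_simp
    · simp only [w, if_neg h]
      have h1 : G α = 0 := hGs α (by omega)
      have h2 := hGE α
      rw [h1] at h2
      have h3 : ((deg α + 1 : ℕ) : ℂ) ≠ 0 := by exact_mod_cast Nat.succ_ne_zero (deg α)
      have h4 : E α = 0 := (smul_eq_zero.1 h2).resolve_left h3
      rw [h4]
      simp
  have h1 : ‖((m : ℂ) + 1) • E‖ ≤ ‖G‖ := by
    rw [← hWG]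
    exact wcomp_norm_le _ _ _ _ _
  have h2 : ‖((m : ℂ) + 1)‖ = (m : ℝ) + 1 := by
    have : ((m : ℂ) + 1) = (((m : ℝ) + 1 : ℝ) : ℂ) := by push_cast; rfl
    rw [this, Complex.norm_real, Real.norm_eq_abs, abs_of_nonneg (by positivity)]
  rw [norm_smul, h2] at h1
  refine h1.trans ?_
  have h3 : ‖G‖ ≤ ‖Mz i (Dz j f)‖ + ‖(if i = j then (1 : ℂ) else 0) • f‖ := norm_sub_le _ _
  have h4 : ‖Mz i (Dz j f)‖ ≤ ‖f‖ := (norm_Mz_le i _).trans (norm_Dz_le j f)
  have h5 : ‖(if i = j then (1 : ℂ) else 0) • f‖ ≤ ‖f‖ := by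
    split_ifs
    · rw [one_smul]
    · rw [zero_smul, norm_zero]; exact norm_nonneg _
  linarith

end Pool.Agent.Lib.MP_15f9af_an
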