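import Mathlib
import Pool.Agent.Lib.MP_15f9af_an.Comm

/-!
# The compressed tuple on the quotient and the tail estimate for its commutators
-/

namespace Pool.Agent.Lib.MP_15f9af_an

open scoped ENNReal

variable {d : ℕ} {K : Type*} [NormedAddCommGroup K] [InnerProductSpace ℂ K] [CompleteSpace K]

/-- The compression `S_i = P_{L^⊥} M_{z_i}|_{L^⊥}`. -/
noncomputable def compress (L : Submodule ℂ (DA d K)) (i : Fin d) : Lᗮ →L[ℂ] Lᗮ :=
  Lᗮ.orthogonalProjectionOnto ∘L (Mz i) ∘L Lᗮ.subtypeL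

/-- The commutator `[S_i, S_j^*]`. -/
noncomputable def selfComm (L : Submodule ℂ (DA d K)) (i j : Fin d) : Lᗮ →L[ℂ] Lᗮ :=
  compress L i ∘L ContinuousLinearMap.adjoint (compress L j) -
    ContinuousLinearMap.adjoint (compress L j) ∘L compress L i

theorem coe_compress (L : Submodule ℂ (DA d K)) (i : Fin d) (h : Lᗮ) :
    ((compress L i h : Lᗮ) : DA d K) = Lᗮ.starProjection (Mz i (h : DA d K)) := rfl

theorem coe_adjoint_compress {L : Submodule ℂ (DA d K)} (hL : IsGradedSubmodule L) (j : Fin d)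
    (h : Lᗮ) : ((ContinuousLinearMap.adjoint (compress L j) h : Lᗮ) : DA d K) =
      Dz j (h : DA d K) := by
  have key : ContinuousLinearMap.adjoint (compress L j) h =
      ⟨Dz j (h : DA d K), Dz_mem_orthogonal hL j h.2⟩ := by
    apply ext_inner_right ℂ
    intro u
    rw [ContinuousLinearMap.adjoint_inner_left]
    rw [Submodule.coe_inner, Submodule.coe_inner, coe_compress]
    rw [← Submodule.inner_starProjection_left_eq_right,
      Submodule.starProjection_mem_subspace_eq_self, inner_Dz]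
  rw [key]

theorem starProjection_cut {L : Submodule ℂ (DA d K)} (hL : IsGradedSubmodule L) (p : ℕ → Prop)
    (f : DA d K) : Lᗮ.starProjection (cut p f) = cut p (Lᗮ.starProjection f) := by
  apply Submodule.eq_starProjection_of_mem_orthogonal
  · exact cut_mem_orthogonal hL p (Submodule.starProjection_apply_mem _ _)
  · rw [← map_sub, Submodule.mem_orthogonal]
    intro u hu
    rw [← inner_cut_left]
    exact (Submodule.mem_orthogonal _ _).1
      (Submodule.sub_starProjection_mem_orthogonal (K := Lᗮ) f) _ (cut_mem_orthogonal hL p hu)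

theorem supp_starProjection {L : Submodule ℂ (DA d K)} (hL : IsGradedSubmodule L) {m : ℕ}
    {f : DA d K} (hf : Supp m f) : Supp m (Lᗮ.starProjection f) := by
  rw [← hf.cut_eq, starProjection_cut hL]
  exact Supp.cut m _

/-- The local bound: for `h ∈ L^⊥` homogeneous of degree `n`, `z_i h` is close to `L^⊥`. -/
def LocalBound (L : Submodule ℂ (DA d K)) (C : ℝ) : Prop :=
  ∀ (i : Fin d) (n : ℕ) (h : DA d K), h ∈ Lᗮ → h ∈ homog d K n →
    ∃ k ∈ Lᗮ, ‖Mz i h - k‖ ^ 2 ≤ C / (n + 1) * ‖h‖ ^ 2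

theorem norm_sub_starProjection_le (V : Submodule ℂ (DA d K)) [V.HasOrthogonalProjection]
    (u k : DA d K) (hk : k ∈ V) : ‖u - V.starProjection u‖ ≤ ‖u - k‖ := by
  rw [Submodule.starProjection_minimal]
  exact ciInf_le ⟨0, by rintro _ ⟨x, rfl⟩; exact norm_nonneg _⟩ (⟨k, hk⟩ : V)

theorem resid_bound {L : Submodule ℂ (DA d K)} (hL : IsGradedSubmodule L) {C : ℝ} (hC : 0 ≤ C)
    (hloc : LocalBound L C) (i : Fin d) (m : ℕ) (h : DA d K) (hh : h ∈ Lᗮ) (hs : Supp m h) :
    ‖Mz i h - Lᗮ.starProjection (Mz i h)‖ ^ 2 ≤ C / (m + 1) * ‖h‖ ^ 2 := by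
  set R := Mz i h - Lᗮ.starProjection (Mz i h) with hR
  have h0 : cut (· = 0) R = 0 := by
    rw [hR, map_sub, ← starProjection_cut hL, cut_zero_Mz, map_zero, sub_zero]
  have hstep : ∀ n, ‖cut (· = n + 1) R‖ ^ 2 ≤ C / (m + 1) * ‖cut (· = n) h‖ ^ 2 := by
    intro n
    have e1 : cut (· = n + 1) R =
        Mz i (cut (· = n) h) - Lᗮ.starProjection (Mz i (cut (· = n) h)) := by
      rw [hR, map_sub, ← starProjection_cut hL, cut_Mz]
    rw [e1]
    by_cases hn : m ≤ n
    · obtain ⟨k, hk, hkb⟩ := hloc i n (cut (· = n) h) (cut_mem_orthogonal hL _ hh)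
        (cut_mem_homog n h)
      calc ‖Mz i (cut (· = n) h) - Lᗮ.starProjection (Mz i (cut (· = n) h))‖ ^ 2
          ≤ ‖Mz i (cut (· = n) h) - k‖ ^ 2 :=
            pow_le_pow_left₀ (norm_nonneg _) (norm_sub_starProjection_le _ _ _ hk) 2
        _ ≤ C / (n + 1) * ‖cut (· = n) h‖ ^ 2 := hkb
        _ ≤ C / (m + 1) * ‖cut (· = n) h‖ ^ 2 := by
            apply mul_le_mul_of_nonneg_right _ (sq_nonneg _)
            apply div_le_div_of_nonneg_left hC (by positivity)
            have : (m : ℝ) ≤ n := by exact_mod_cast hn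
            linarith
    · have : cut (· = n) h = 0 := by
        ext α
        by_cases hα : deg α = n
        · rw [cut_apply_pos _ _ _ hα, hs α (by omega)]
          rfl
        · rw [cut_apply_neg _ _ _ hα]
          rfl
      rw [this, map_zero, map_zero, sub_zero, norm_zero]
      norm_num
  have hp1 : HasSum (fun n => ‖cut (· = n + 1) R‖ ^ 2) (‖R‖ ^ 2) := by
    have := (hasSum_nat_add_iff' (f := fun n => ‖cut (· = n) R‖ ^ 2) 1).2 (parseval R)
    simp only [Finset.sum_range_one] at this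
    rw [h0] at this
    simpa using this
  have hp2 : HasSum (fun n => C / (m + 1) * ‖cut (· = n) h‖ ^ 2) (C / (m + 1) * ‖h‖ ^ 2) :=
    (parseval h).mul_left _
  exact hasSum_le hstep hp1 hp2

theorem inner_selfComm {L : Submodule ℂ (DA d K)} (hL : IsGradedSubmodule L) (i j : Fin d)
    (h u : Lᗮ) : inner ℂ (selfComm L i j h) u =
      inner ℂ (Mz i (Dz j (h : DA d K)) - Dz j (Mz i (h : DA d K))) (u : DA d K) +
      inner ℂ (Mz i (h : DA d K) - Lᗮ.starProjection (Mz i (h : DA d K)))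
        (Mz j (u : DA d K) - Lᗮ.starProjection (Mz j (u : DA d K))) := by
  unfold selfComm
  rw [ContinuousLinearMap.sub_apply, inner_sub_left]
  have e1 : inner ℂ ((compress L i ∘L ContinuousLinearMap.adjoint (compress L j)) h) u =
      inner ℂ (Mz i (Dz j (h : DA d K))) (u : DA d K) := by
    rw [ContinuousLinearMap.comp_apply, ← ContinuousLinearMap.adjoint_inner_right,
      Submodule.coe_inner, coe_adjoint_compress hL, coe_adjoint_compress hL, inner_Mz]
  have e2 : inner ℂ ((ContinuousLinearMap.adjoint (compress L j) ∘L compress L i) h) u =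
      inner ℂ (Lᗮ.starProjection (Mz i (h : DA d K))) (Lᗮ.starProjection (Mz j (u : DA d K))) := by
    rw [ContinuousLinearMap.comp_apply, ContinuousLinearMap.adjoint_inner_left,
      Submodule.coe_inner, coe_compress, coe_compress]
  rw [e1, e2]
  have e3 : inner ℂ (Mz i (h : DA d K) - Lᗮ.starProjection (Mz i (h : DA d K)))
        (Mz j (u : DA d K) - Lᗮ.starProjection (Mz j (u : DA d K))) =
      inner ℂ (Mz i (h : DA d K)) (Mz j (u : DA d K)) -
        inner ℂ (Lᗮ.starProjection (Mz i (h : DA d K))) (Lᗮ.starProjection (Mz j (u : DA d K))) := by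
    have o1 : inner ℂ (Mz i (h : DA d K) - Lᗮ.starProjection (Mz i (h : DA d K)))
        (Lᗮ.starProjection (Mz j (u : DA d K))) = 0 := by
      exact Submodule.starProjection_inner_eq_zero _ _ (Submodule.starProjection_apply_mem _ _)
    have o2 : inner ℂ (Lᗮ.starProjection (Mz i (h : DA d K)))
        (Mz j (u : DA d K) - Lᗮ.starProjection (Mz j (u : DA d K))) = 0 := by
      have := Submodule.starProjection_inner_eq_zero (K := Lᗮ) (Mz j (u : DA d K))
        (Lᗮ.starProjection (Mz i (h : DA d K))) (Submodule.starProjection_apply_mem _ _)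
      rw [← inner_conj_symm, this, map_zero]
    rw [inner_sub_right, o1, sub_zero, inner_sub_left]
    rw [inner_sub_right] at o2
    rw [← sub_eq_zero.1 o2]
  rw [e3, inner_sub_left, inner_Dz j (Mz i (h : DA d K)) (u : DA d K)]
  ring

theorem coe_selfComm {L : Submodule ℂ (DA d K)} (hL : IsGradedSubmodule L) (i j : Fin d)
    (h : Lᗮ) : ((selfComm L i j h : Lᗮ) : DA d K) =
      Lᗮ.starProjection (Mz i (Dz j (h : DA d K))) -
        Dz j (Lᗮ.starProjection (Mz i (h : DA d K))) := by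
  unfold selfComm
  rw [ContinuousLinearMap.sub_apply, Submodule.coe_sub, ContinuousLinearMap.comp_apply,
    ContinuousLinearMap.comp_apply, coe_compress, coe_adjoint_compress hL,
    coe_adjoint_compress hL, coe_compress]

theorem supp_selfComm {L : Submodule ℂ (DA d K)} (hL : IsGradedSubmodule L) (i j : Fin d)
    (h : Lᗮ) {m : ℕ} (hs : Supp m (h : DA d K)) :
    Supp m ((selfComm L i j h : Lᗮ) : DA d K) := by
  rw [coe_selfComm hL]
  apply Supp.sub
  · apply supp_starProjection hL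
    rcases Nat.eq_zero_or_pos m with h0 | h0
    · subst h0
      intro α hα
      omega
    · obtain ⟨k, rfl⟩ : ∃ k, m = k + 1 := ⟨m - 1, by omega⟩
      exact (hs.Dz j).Mz i
  · exact (supp_starProjection hL (hs.Mz i)).Dz j

/-- The tail estimate. -/
theorem selfComm_tail {L : Submodule ℂ (DA d K)} (hL : IsGradedSubmodule L) {C : ℝ} (hC : 0 ≤ C)
    (hloc : LocalBound L C) (i j : Fin d) (m : ℕ) (h : Lᗮ) (hs : Supp m (h : DA d K)) :
    ‖selfComm L i j h‖ ≤ (2 + C) / (m + 1) * ‖h‖ := by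
  have hm : (0 : ℝ) < (m : ℝ) + 1 := by positivity
  set u := selfComm L i j h with hu
  have hus : Supp m (u : DA d K) := supp_selfComm hL i j h hs
  have h1 : ‖u‖ ^ 2 = ‖inner ℂ u u‖ := by
    rw [inner_self_eq_norm_sq_to_K]
    simp
  have h2 : inner ℂ u u = inner ℂ (selfComm L i j h) u := by rw [hu]
  rw [h2, inner_selfComm hL] at h1
  have b1 : ‖(Mz i (Dz j (h : DA d K)) - Dz j (Mz i (h : DA d K)))‖ ≤ 2 / (m + 1) * ‖h‖ := by
    have := comm_norm_le i j m (h : DA d K) hs
    rw [div_mul_eq_mul_div, le_div_iff₀ hm, mul_comm]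
    exact this
  have b2 : ‖Mz i (h : DA d K) - Lᗮ.starProjection (Mz i (h : DA d K))‖ ≤
      Real.sqrt (C / (m + 1)) * ‖h‖ := by
    have := resid_bound hL hC hloc i m (h : DA d K) h.2 hs
    apply le_of_sq_le_sq _ (by positivity)
    rw [mul_pow, Real.sq_sqrt (by positivity)]
    exact this
  have b3 : ‖Mz j (u : DA d K) - Lᗮ.starProjection (Mz j (u : DA d K))‖ ≤
      Real.sqrt (C / (m + 1)) * ‖u‖ := by
    have := resid_bound hL hC hloc j m (u : DA d K) u.2 hus
    apply le_of_sq_le_sq _ (by positivity)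
    rw [mul_pow, Real.sq_sqrt (by positivity)]
    exact this
  have b4 : ‖u‖ ^ 2 ≤ (2 + C) / (m + 1) * ‖h‖ * ‖u‖ := by
    rw [h1]
    refine (norm_add_le _ _).trans ?_
    have c1 := norm_inner_le_norm (𝕜 := ℂ) (Mz i (Dz j (h : DA d K)) - Dz j (Mz i (h : DA d K)))
      (u : DA d K)
    have c2 := norm_inner_le_norm (𝕜 := ℂ)
      (Mz i (h : DA d K) - Lᗮ.starProjection (Mz i (h : DA d K)))
      (Mz j (u : DA d K) - Lᗮ.starProjection (Mz j (u : DA d K)))
    have c3 : ‖(Mz i (Dz j (h : DA d K)) - Dz j (Mz i (h : DA d K)))‖ * ‖(u : DA d K)‖ ≤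
        2 / (m + 1) * ‖h‖ * ‖u‖ := mul_le_mul_of_nonneg_right b1 (norm_nonneg _)
    have c4 : ‖Mz i (h : DA d K) - Lᗮ.starProjection (Mz i (h : DA d K))‖ *
        ‖Mz j (u : DA d K) - Lᗮ.starProjection (Mz j (u : DA d K))‖ ≤
        C / (m + 1) * ‖h‖ * ‖u‖ := by
      calc _ ≤ (Real.sqrt (C / (m + 1)) * ‖h‖) * (Real.sqrt (C / (m + 1)) * ‖u‖) :=
            mul_le_mul b2 b3 (norm_nonneg _) (by positivity)
        _ = (Real.sqrt (C / (m + 1)) * Real.sqrt (C / (m + 1))) * ‖h‖ * ‖u‖ := by ring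
        _ = _ := by rw [Real.mul_self_sqrt (by positivity)]
    calc _ ≤ 2 / (m + 1) * ‖h‖ * ‖u‖ + C / (m + 1) * ‖h‖ * ‖u‖ :=
          add_le_add (c1.trans c3) (c2.trans c4)
      _ = _ := by ring
  by_cases hu0 : ‖u‖ = 0
  · rw [hu0]; positivity
  · have hupos : 0 < ‖u‖ := lt_of_le_of_ne (norm_nonneg _) (Ne.symm hu0)
    rw [sq] at b4
    exact le_of_mul_le_mul_right b4 hupos

end Pool.Agent.Lib.MP_15f9af_an
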