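import Mathlib
import Pool.Agent.Lib.MP_15f9af_an.Compress

/-!
# Schatten classes via approximation numbers, and the summability criterion
-/

namespace Pool.Agent.Lib.MP_15f9af_an

open scoped ENNReal

/-- The `n`-th approximation number of `T`: the distance from `T` to the operators of rank `≤ n`.
On a Hilbert space this is the `n`-th singular value (counting from `0`). -/
noncomputable def approxNumber {E : Type*} [NormedAddCommGroup E] [NormedSpace ℂ E]
    (T : E →L[ℂ] E) (n : ℕ) : ℝ :=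
  sInf {r : ℝ | ∃ F : E →L[ℂ] E, FiniteDimensional ℂ (LinearMap.range (F : E →ₗ[ℂ] E)) ∧
    Module.finrank ℂ (LinearMap.range (F : E →ₗ[ℂ] E)) ≤ n ∧ r = ‖T - F‖}

/-- The Schatten class `S^p`: the singular values are `p`-summable. -/
def InSchatten {E : Type*} [NormedAddCommGroup E] [NormedSpace ℂ E] (p : ℝ)
    (T : E →L[ℂ] E) : Prop :=
  Summable fun n : ℕ => approxNumber T n ^ p

section general

variable {E : Type*} [NormedAddCommGroup E] [NormedSpace ℂ E]

theorem approxNumber_nonneg (T : E →L[ℂ] E) (n : ℕ) : 0 ≤ approxNumber T n := by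
  apply Real.sInf_nonneg
  rintro r ⟨F, _, _, rfl⟩
  exact norm_nonneg _

theorem approxNumber_le (T F : E →L[ℂ] E) (n : ℕ)
    (h1 : FiniteDimensional ℂ (LinearMap.range (F : E →ₗ[ℂ] E)))
    (h2 : Module.finrank ℂ (LinearMap.range (F : E →ₗ[ℂ] E)) ≤ n) :
    approxNumber T n ≤ ‖T - F‖ := by
  apply csInf_le
  · refine ⟨0, ?_⟩
    rintro r ⟨F, _, _, rfl⟩
    exact norm_nonneg _
  · exact ⟨F, h1, h2, rfl⟩

end general

variable {d : ℕ} {K : Type*} [NormedAddCommGroup K] [InnerProductSpace ℂ K]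

theorem finite_deg (n : ℕ) : {α : Fin d → ℕ | deg α = n}.Finite := by
  apply (Set.finite_Iic (fun _ : Fin d => n)).subset
  intro α hα j
  have : deg α = n := hα
  exact (le_deg j α).trans this.le

instance finiteDimensional_homog [FiniteDimensional ℂ K] (n : ℕ) :
    FiniteDimensional ℂ (homog d K n) := by
  have : Finite {α : Fin d → ℕ // deg α = n} := (finite_deg n).to_subtype
  let φ : homog d K n →ₗ[ℂ] ({α : Fin d → ℕ // deg α = n} → K) :=
    { toFun := fun f α => (f : DA d K) α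
      map_add' := by intro f g; funext α; simp
      map_smul' := by intro c f; funext α; simp }
  apply FiniteDimensional.of_injective φ
  intro f g hfg
  apply Subtype.ext
  ext α
  by_cases h : deg α = n
  · exact congrFun hfg ⟨α, h⟩
  · rw [f.2 α h, g.2 α h]

/-- elements supported in degrees `< m` -/
noncomputable def lowdeg (d : ℕ) (K : Type*) [NormedAddCommGroup K] [InnerProductSpace ℂ K]
    (m : ℕ) : Submodule ℂ (DA d K) where
  carrier := {f | ∀ α, m ≤ deg α → f α = 0}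
  add_mem' := by
    intro f g hf hg α h
    simp only [lp.coeFn_add, Pi.add_apply]
    rw [hf α h, hg α h, add_zero]
  zero_mem' := by
    intro α _
    simp
  smul_mem' := by
    intro c f hf α h
    simp only [lp.coeFn_smul, Pi.smul_apply]
    rw [hf α h, smul_zero]

theorem lowdeg_step {L : Submodule ℂ (DA d K)} (hL : IsGradedSubmodule L) (m : ℕ) :
    Lᗮ ⊓ lowdeg d K (m + 1) ≤ (Lᗮ ⊓ lowdeg d K m) ⊔ (Lᗮ ⊓ homog d K m) := by
  intro f hf
  rw [Submodule.mem_sup]
  refine ⟨cut (· < m) f, ⟨cut_mem_orthogonal hL _ hf.1, ?_⟩, cut (· = m) f,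
    ⟨cut_mem_orthogonal hL _ hf.1, cut_mem_homog m f⟩, ?_⟩
  · intro α hα
    exact cut_apply_neg _ _ _ (by omega)
  · ext α
    simp only [lp.coeFn_add, Pi.add_apply]
    rcases lt_trichotomy (deg α) m with h | h | h
    · rw [cut_apply_pos (· < m) f α h, cut_apply_neg (· = m) f α (by omega), add_zero]
    · rw [cut_apply_neg (· < m) f α (by omega), cut_apply_pos (· = m) f α h, zero_add]
    · rw [cut_apply_neg (· < m) f α (by omega), cut_apply_neg (· = m) f α (by omega), add_zero]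
      symm
      exact hf.2 α h

theorem lowdeg_finrank [FiniteDimensional ℂ K] {L : Submodule ℂ (DA d K)}
    (hL : IsGradedSubmodule L) (m : ℕ) :
    FiniteDimensional ℂ (Lᗮ ⊓ lowdeg d K m : Submodule ℂ (DA d K)) ∧
      Module.finrank ℂ (Lᗮ ⊓ lowdeg d K m : Submodule ℂ (DA d K)) ≤
        ∑ n ∈ Finset.range m, Module.finrank ℂ (Hpart L n) := by
  induction m with
  | zero =>
    have : (Lᗮ ⊓ lowdeg d K 0 : Submodule ℂ (DA d K)) = ⊥ := by
      rw [eq_bot_iff]
      intro f hf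
      rw [Submodule.mem_bot]
      ext α
      exact hf.2 α (Nat.zero_le _)
    rw [this]
    exact ⟨inferInstance, by simp⟩
  | succ m ih =>
    obtain ⟨ih1, ih2⟩ := ih
    have : FiniteDimensional ℂ (Lᗮ ⊓ homog d K m : Submodule ℂ (DA d K)) :=
      Submodule.finiteDimensional_of_le (inf_le_right : Lᗮ ⊓ homog d K m ≤ homog d K m)
    have hle := lowdeg_step hL m
    refine ⟨Submodule.finiteDimensional_of_le hle, ?_⟩
    rw [Finset.sum_range_succ, Hpart_eq hL m]
    calc Module.finrank ℂ (Lᗮ ⊓ lowdeg d K (m + 1) : Submodule ℂ (DA d K))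
        ≤ Module.finrank ℂ ((Lᗮ ⊓ lowdeg d K m) ⊔ (Lᗮ ⊓ homog d K m) : Submodule ℂ (DA d K)) :=
          Submodule.finrank_mono hle
      _ ≤ _ := Submodule.finrank_add_le_finrank_add_finrank _ _
      _ ≤ _ := Nat.add_le_add_right ih2 _

variable [CompleteSpace K]

theorem approx_selfComm [FiniteDimensional ℂ K] {L : Submodule ℂ (DA d K)}
    (hL : IsGradedSubmodule L) {C : ℝ} (hC : 0 ≤ C) (hloc : LocalBound L C) (i j : Fin d)
    (m N : ℕ) (hN : ∑ n ∈ Finset.range m, Module.finrank ℂ (Hpart L n) ≤ N) :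
    approxNumber (selfComm L i j) N ≤ (2 + C) / (m + 1) := by
  obtain ⟨hfd, hfr⟩ := lowdeg_finrank hL m
  let Q : Lᗮ →L[ℂ] Lᗮ := (cut (· < m) ∘L Lᗮ.subtypeL).codRestrict Lᗮ
    (fun x => cut_mem_orthogonal hL (fun n => n < m) x.2)
  have hQ : ∀ h : Lᗮ, ((Q h : Lᗮ) : DA d K) = cut (· < m) (h : DA d K) := fun h => rfl
  let F : Lᗮ →L[ℂ] Lᗮ := selfComm L i j ∘L Q
  have hmap : (LinearMap.range (Q : Lᗮ →ₗ[ℂ] Lᗮ)).map Lᗮ.subtype ≤ Lᗮ ⊓ lowdeg d K m := by
    rintro _ ⟨_, ⟨h, rfl⟩, rfl⟩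
    refine ⟨(Q h).2, ?_⟩
    intro α hα
    change ((Q h : Lᗮ) : DA d K) α = 0
    rw [hQ]
    exact cut_apply_neg _ _ _ (by omega)
  have hfm : FiniteDimensional ℂ ((LinearMap.range (Q : Lᗮ →ₗ[ℂ] Lᗮ)).map Lᗮ.subtype) :=
    Submodule.finiteDimensional_of_le hmap
  have e := Submodule.equivMapOfInjective Lᗮ.subtype (Submodule.subtype_injective _)
    (LinearMap.range (Q : Lᗮ →ₗ[ℂ] Lᗮ))
  have hfQ : FiniteDimensional ℂ (LinearMap.range (Q : Lᗮ →ₗ[ℂ] Lᗮ)) :=
    Module.Finite.equiv e.symm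
  have hrQ : Module.finrank ℂ (LinearMap.range (Q : Lᗮ →ₗ[ℂ] Lᗮ)) ≤ N := by
    rw [LinearEquiv.finrank_eq e]
    exact (Submodule.finrank_mono hmap).trans (hfr.trans hN)
  have hrange : LinearMap.range (F : Lᗮ →ₗ[ℂ] Lᗮ) =
      (LinearMap.range (Q : Lᗮ →ₗ[ℂ] Lᗮ)).map (selfComm L i j : Lᗮ →ₗ[ℂ] Lᗮ) := by
    rw [← LinearMap.range_comp]
    rfl
  have hF1 : FiniteDimensional ℂ (LinearMap.range (F : Lᗮ →ₗ[ℂ] Lᗮ)) := by
    rw [hrange]; infer_instance
  have hF2 : Module.finrank ℂ (LinearMap.range (F : Lᗮ →ₗ[ℂ] Lᗮ)) ≤ N := by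
    rw [hrange]
    exact (Submodule.finrank_map_le _ _).trans hrQ
  refine (approxNumber_le _ F N hF1 hF2).trans ?_
  apply ContinuousLinearMap.opNorm_le_bound _ (by positivity)
  intro h
  have e1 : (selfComm L i j - F) h = selfComm L i j (h - Q h) := by
    rw [map_sub]; rfl
  rw [e1]
  have e2 : ((h - Q h : Lᗮ) : DA d K) = cut (fun n => ¬ n < m) (h : DA d K) := by
    rw [Submodule.coe_sub, hQ]
    rw [sub_eq_iff_eq_add, add_comm]
    exact (cut_add_cut_not (· < m) (h : DA d K)).symm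
  have e3 : Supp m ((h - Q h : Lᗮ) : DA d K) := by
    rw [e2]
    intro α hα
    exact cut_apply_neg _ _ _ (by omega)
  refine (selfComm_tail hL hC hloc i j m (h - Q h) e3).trans ?_
  apply mul_le_mul_of_nonneg_left _ (by positivity)
  have e4 : ‖h - Q h‖ = ‖((h - Q h : Lᗮ) : DA d K)‖ := rfl
  rw [e4, e2]
  exact norm_cut_le _ _

/-- polynomial growth bound -/
theorem poly_bound (P : Polynomial ℚ) :
    ∃ B : ℝ, 0 ≤ B ∧ ∀ n : ℕ,
      |((P.eval (n : ℚ) : ℚ) : ℝ)| ≤ B * ((n : ℝ) + 1) ^ P.natDegree := by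
  refine ⟨∑ k ∈ Finset.range (P.natDegree + 1), |(P.coeff k : ℝ)|, by positivity, fun n => ?_⟩
  rw [Polynomial.eval_eq_sum_range]
  push_cast
  calc |∑ k ∈ Finset.range (P.natDegree + 1), (P.coeff k : ℝ) * (n : ℝ) ^ k|
      ≤ ∑ k ∈ Finset.range (P.natDegree + 1), |(P.coeff k : ℝ) * (n : ℝ) ^ k| :=
        Finset.abs_sum_le_sum_abs _ _
    _ ≤ ∑ k ∈ Finset.range (P.natDegree + 1), |(P.coeff k : ℝ)| * ((n : ℝ) + 1) ^ P.natDegree := by
        apply Finset.sum_le_sum
        intro k hk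
        rw [abs_mul]
        apply mul_le_mul_of_nonneg_left _ (abs_nonneg _)
        rw [abs_of_nonneg (by positivity)]
        calc (n : ℝ) ^ k ≤ ((n : ℝ) + 1) ^ k := pow_le_pow_left₀ (Nat.cast_nonneg n) (by linarith) k
          _ ≤ ((n : ℝ) + 1) ^ P.natDegree :=
            pow_le_pow_right₀ (by have := Nat.cast_nonneg (α := ℝ) n; linarith)
              (by have := Finset.mem_range.1 hk; omega)
    _ = (∑ k ∈ Finset.range (P.natDegree + 1), |(P.coeff k : ℝ)|) *
          ((n : ℝ) + 1) ^ P.natDegree := by rw [Finset.sum_mul]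

/-- Summability from the counting estimate. -/
theorem summable_of_counting (a : ℕ → ℝ) (ha0 : ∀ N, 0 ≤ a N) (A : ℝ) (hA : 0 ≤ A)
    (r : ℕ → ℕ) (hr : ∀ m N, r m ≤ N → a N ≤ A / (m + 1)) (q : ℕ) (A0 : ℝ) (hA0 : 0 < A0)
    (hrq : ∀ m, (r m : ℝ) ≤ A0 * (m : ℝ) ^ (q + 1)) (p : ℝ) (hp : (q : ℝ) + 1 < p) :
    Summable fun N => a N ^ p := by
  have hq1 : (0 : ℝ) < (q : ℝ) + 1 := by positivity
  have hp0 : 0 < p := hq1.trans hp
  rw [← summable_nat_add_iff 1]
  have hbound : ∀ N : ℕ, a (N + 1) ^ p ≤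
      (A * A0 ^ (1 / ((q : ℝ) + 1))) ^ p * (((N + 1 : ℕ) : ℝ) ^ (-(p / ((q : ℝ) + 1)))) := by
    intro N
    set x : ℝ := ((N + 1 : ℕ) : ℝ) / A0 with hx
    have hxpos : 0 < x := by positivity
    set m : ℕ := ⌊x ^ (1 / ((q : ℝ) + 1))⌋₊ with hm
    have hxr : 0 < x ^ (1 / ((q : ℝ) + 1)) := Real.rpow_pos_of_pos hxpos _
    have hm1 : (m : ℝ) ≤ x ^ (1 / ((q : ℝ) + 1)) := Nat.floor_le hxr.le
    have hm2 : x ^ (1 / ((q : ℝ) + 1)) < m + 1 := Nat.lt_floor_add_one _
    have hmq : (m : ℝ) ^ (q + 1) ≤ x := by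
      calc (m : ℝ) ^ (q + 1) ≤ (x ^ (1 / ((q : ℝ) + 1))) ^ (q + 1) :=
            pow_le_pow_left₀ (Nat.cast_nonneg _) hm1 _
        _ = x := by
            rw [← Real.rpow_natCast, ← Real.rpow_mul hxpos.le]
            push_cast
            rw [one_div, inv_mul_cancel₀ hq1.ne', Real.rpow_one]
    have hrm : r m ≤ N + 1 := by
      have h1 : (r m : ℝ) ≤ ((N + 1 : ℕ) : ℝ) := by
        calc (r m : ℝ) ≤ A0 * (m : ℝ) ^ (q + 1) := hrq m
          _ ≤ A0 * x := mul_le_mul_of_nonneg_left hmq hA0.le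
          _ = _ := by rw [hx]; field_simp
      exact_mod_cast h1
    have h2 : a (N + 1) ≤ A / x ^ (1 / ((q : ℝ) + 1)) := by
      refine (hr m (N + 1) hrm).trans ?_
      exact div_le_div_of_nonneg_left hA hxr hm2.le
    have h3 : A / x ^ (1 / ((q : ℝ) + 1)) =
        (A * A0 ^ (1 / ((q : ℝ) + 1))) * (((N + 1 : ℕ) : ℝ) ^ (-(1 / ((q : ℝ) + 1)))) := by
      rw [hx, Real.div_rpow (by positivity) hA0.le, Real.rpow_neg (by positivity)]
      have : ((N + 1 : ℕ) : ℝ) ^ (1 / ((q : ℝ) + 1)) ≠ 0 :=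
        (Real.rpow_pos_of_pos (by positivity) _).ne'
      have : A0 ^ (1 / ((q : ℝ) + 1)) ≠ 0 := (Real.rpow_pos_of_pos hA0 _).ne'
      field_simp
    calc a (N + 1) ^ p ≤ (A / x ^ (1 / ((q : ℝ) + 1))) ^ p :=
          Real.rpow_le_rpow (ha0 _) h2 hp0.le
      _ = _ := by
          rw [h3, Real.mul_rpow (by positivity) (by positivity), ← Real.rpow_mul (by positivity)]
          congr 2
          ring
  apply Summable.of_nonneg_of_le (fun N => Real.rpow_nonneg (ha0 _) _) hbound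
  apply Summable.mul_left
  have h1 : Summable fun n : ℕ => (n : ℝ) ^ (-(p / ((q : ℝ) + 1))) := by
    rw [Real.summable_nat_rpow]
    have : 1 < p / ((q : ℝ) + 1) := by rwa [one_lt_div hq1]
    linarith
  exact (summable_nat_add_iff 1).2 h1

theorem growth_of_poly (h : ℕ → ℕ) (P : Polynomial ℚ)
    (hP : ∀ᶠ n : ℕ in Filter.atTop, (h n : ℚ) = P.eval (n : ℚ)) :
    ∃ A0 : ℝ, 0 < A0 ∧ ∀ m : ℕ,
      ((∑ n ∈ Finset.range m, h n : ℕ) : ℝ) ≤ A0 * (m : ℝ) ^ (P.natDegree + 1) := by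
  obtain ⟨n0, hn0⟩ := Filter.eventually_atTop.1 hP
  obtain ⟨B, hB0, hB⟩ := poly_bound P
  obtain ⟨S, hS⟩ : ∃ S : ℝ, S = ∑ n ∈ Finset.range n0, (h n : ℝ) := ⟨_, rfl⟩
  have hS0 : 0 ≤ S := by rw [hS]; positivity
  generalize P.natDegree = q at hB ⊢
  have hfin : ∀ n : ℕ, (h n : ℝ) ≤ (B + S + 1) * ((n : ℝ) + 1) ^ q := by
    intro n
    have hone : (1 : ℝ) ≤ ((n : ℝ) + 1) ^ q :=
      one_le_pow₀ (by have := Nat.cast_nonneg (α := ℝ) n; linarith)
    rcases lt_or_ge n n0 with hlt | hge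
    · have h1 : (h n : ℝ) ≤ S := by
        rw [hS]
        exact Finset.single_le_sum (f := fun n => (h n : ℝ))
          (fun _ _ => Nat.cast_nonneg _) (Finset.mem_range.2 hlt)
      nlinarith
    · have h1 := hn0 n hge
      have h2 : (h n : ℝ) = ((P.eval (n : ℚ) : ℚ) : ℝ) := by
        rw [← h1]; push_cast; rfl
      have h3 := hB n
      have h4 := (le_abs_self ((P.eval (n : ℚ) : ℚ) : ℝ)).trans h3
      rw [h2]
      nlinarith
  refine ⟨B + S + 1, by positivity, fun m => ?_⟩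
  push_cast
  calc ∑ n ∈ Finset.range m, (h n : ℝ)
      ≤ ∑ n ∈ Finset.range m, (B + S + 1) * (m : ℝ) ^ q := by
        apply Finset.sum_le_sum
        intro n hn
        refine (hfin n).trans ?_
        apply mul_le_mul_of_nonneg_left _ (by positivity)
        apply pow_le_pow_left₀ (by positivity)
        have := Finset.mem_range.1 hn
        exact_mod_cast this
    _ = (B + S + 1) * (m : ℝ) ^ (q + 1) := by
        rw [Finset.sum_const, Finset.card_range, nsmul_eq_mul]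
        ring

theorem bounded_of_zero (h : ℕ → ℕ)
    (hz : ∀ᶠ n : ℕ in Filter.atTop, h n = 0) :
    ∃ R : ℕ, ∀ m, ∑ n ∈ Finset.range m, h n ≤ R := by
  obtain ⟨n0, hn0⟩ := Filter.eventually_atTop.1 hz
  refine ⟨∑ n ∈ Finset.range n0, h n, fun m => ?_⟩
  rcases le_total m n0 with hm | hm
  · exact Finset.sum_le_sum_of_subset (Finset.range_mono hm)
  · rw [← Finset.sum_range_add_sum_Ico _ hm]
    have : ∑ n ∈ Finset.Ico n0 m, h n = 0 :=
      Finset.sum_eq_zero fun n hn => hn0 n (Finset.mem_Ico.1 hn).1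
    rw [this, add_zero]

theorem inSchatten_of_localBound [FiniteDimensional ℂ K] {L : Submodule ℂ (DA d K)}
    (hL : IsGradedSubmodule L) {C : ℝ} (hC : 0 ≤ C) (hloc : LocalBound L C)
    (P : Polynomial ℚ)
    (hP : ∀ᶠ n : ℕ in Filter.atTop, (Module.finrank ℂ (Hpart L n) : ℚ) = P.eval (n : ℚ))
    (p : ℝ) (hp1 : 1 ≤ p) (hp : P ≠ 0 → (P.natDegree : ℝ) + 1 < p) (i j : Fin d) :
    InSchatten p (selfComm L i j) := by
  unfold InSchatten
  have happ : ∀ m N, ∑ n ∈ Finset.range m, Module.finrank ℂ (Hpart L n) ≤ N →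
      approxNumber (selfComm L i j) N ≤ (2 + C) / (m + 1) :=
    fun m N h => approx_selfComm hL hC hloc i j m N h
  by_cases hP0 : P = 0
  · -- finite dimensional quotient
    have hz : ∀ᶠ n : ℕ in Filter.atTop, Module.finrank ℂ (Hpart L n) = 0 := by
      filter_upwards [hP] with n hn
      rw [hP0, Polynomial.eval_zero] at hn
      exact_mod_cast hn
    obtain ⟨R, hR⟩ := bounded_of_zero (fun n => Module.finrank ℂ (Hpart L n)) hz
    have hzero : ∀ N, N ∉ Finset.range R → approxNumber (selfComm L i j) N ^ p = 0 := by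
      intro N hN
      have hN' : R ≤ N := by simpa using hN
      have h1 : approxNumber (selfComm L i j) N = 0 := by
        apply le_antisymm _ (approxNumber_nonneg _ _)
        apply le_of_forall_pos_le_add
        intro ε hε
        obtain ⟨m, hm⟩ := exists_nat_gt ((2 + C) / ε)
        have h2 := happ m N ((hR m).trans hN')
        rw [zero_add]
        refine h2.trans ?_
        rw [div_le_iff₀ (by positivity)]
        rw [div_lt_iff₀ hε] at hm
        nlinarith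
      rw [h1, Real.zero_rpow (by linarith)]
    exact summable_of_ne_finset_zero hzero
  · obtain ⟨A0, hA0, hA⟩ := growth_of_poly (fun n => Module.finrank ℂ (Hpart L n)) P hP
    exact summable_of_counting (fun N => approxNumber (selfComm L i j) N)
      (fun N => approxNumber_nonneg _ N) (2 + C) (by positivity)
      (fun m => ∑ n ∈ Finset.range m, Module.finrank ℂ (Hpart L n)) happ P.natDegree
      A0 hA0 hA p (hp hP0)

end Pool.Agent.Lib.MP_15f9af_an
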