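import Mathlib
import Pool.Agent.Lib.MP_15f9af_an.Schatten

/-!
# Submodules generated by lattice binomials and monomials
-/

namespace Pool.Agent.Lib.MP_15f9af_an

open scoped ENNReal ComplexConjugate

variable {d : ℕ} {K : Type*} [NormedAddCommGroup K] [InnerProductSpace ℂ K]

/-- The smallest closed subspace which contains `S` and is invariant under all `M_{z_i}`. -/
noncomputable def closedSubmoduleGen (S : Set (DA d K)) : Submodule ℂ (DA d K) :=
  sInf {N : Submodule ℂ (DA d K) | IsClosed (N : Set (DA d K)) ∧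
    (∀ i : Fin d, ∀ f ∈ N, Mz i f ∈ N) ∧ S ⊆ (N : Set (DA d K))}

theorem gen_closed (S : Set (DA d K)) : IsClosed (closedSubmoduleGen S : Set (DA d K)) := by
  unfold closedSubmoduleGen
  rw [Submodule.coe_sInf]
  apply isClosed_biInter
  intro N hN
  exact hN.1

theorem gen_invariant (S : Set (DA d K)) (i : Fin d) (f : DA d K)
    (hf : f ∈ closedSubmoduleGen S) : Mz i f ∈ closedSubmoduleGen S := by
  unfold closedSubmoduleGen at hf ⊢
  rw [Submodule.mem_sInf] at hf ⊢
  intro N hN
  exact hN.2.1 i f (hf N hN)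

theorem subset_gen (S : Set (DA d K)) {f : DA d K} (hf : f ∈ S) : f ∈ closedSubmoduleGen S := by
  unfold closedSubmoduleGen
  rw [Submodule.mem_sInf]
  intro N hN
  exact hN.2.2 hf

theorem gen_le (S : Set (DA d K)) (N : Submodule ℂ (DA d K)) (h1 : IsClosed (N : Set (DA d K)))
    (h2 : ∀ i : Fin d, ∀ f ∈ N, Mz i f ∈ N) (h3 : S ⊆ (N : Set (DA d K))) :
    closedSubmoduleGen S ≤ N := sInf_le ⟨h1, h2, h3⟩

/-- The lattice binomials `(z^α - χ(α-β) z^β) ⊗ v`, `α - β ∈ Λ`, together with the `K`-valued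
monomials `z^γ ⊗ v`, `(γ, v) ∈ G`. -/
def latticeGens (Λ : AddSubgroup (Fin d → ℤ)) (χ : AddChar Λ ℂ) (G : Set ((Fin d → ℕ) × K)) :
    Set (DA d K) :=
  {f | ∃ (α β : Fin d → ℕ) (v : K) (h : zdiff α β ∈ Λ),
      f = mono α v - χ ⟨zdiff α β, h⟩ • mono β v} ∪
  {f | ∃ p ∈ G, f = mono p.1 p.2}

section

variable (Λ : AddSubgroup (Fin d → ℤ)) (χ : AddChar Λ ℂ) (G : Set ((Fin d → ℕ) × K))

theorem coef_Dz (i : Fin d) (h : DA d K) (α : Fin d → ℕ) :
    coef (Dz i h) α = coef h (inc i α) := by
  unfold coef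
  rw [Dz_apply, zw_inc, Real.sqrt_mul (zw_pos α).le, smul_smul]
  push_cast
  rfl

theorem coef_add (f g : DA d K) (α : Fin d → ℕ) : coef (f + g) α = coef f α + coef g α := by
  unfold coef
  rw [lp.coeFn_add, Pi.add_apply, smul_add]

theorem coef_smul (c : ℂ) (f : DA d K) (α : Fin d → ℕ) : coef (c • f) α = c • coef f α := by
  unfold coef
  rw [lp.coeFn_smul, Pi.smul_apply, smul_comm]

theorem coef_zero (α : Fin d → ℕ) : coef (0 : DA d K) α = 0 := by
  unfold coef
  rw [lp.coeFn_zero, Pi.zero_apply, smul_zero]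

/-- The quasi-invariant elements. -/
def quasi : Submodule ℂ (DA d K) where
  carrier := {h | (∀ (α β : Fin d → ℕ) (hab : zdiff α β ∈ Λ),
      coef h α = conj (χ ⟨zdiff α β, hab⟩) • coef h β) ∧
      ∀ p ∈ G, ∀ δ : Fin d → ℕ, inner ℂ p.2 (coef h (p.1 + δ)) = 0}
  add_mem' := by
    rintro f g ⟨hf1, hf2⟩ ⟨hg1, hg2⟩
    refine ⟨fun α β hab => ?_, fun p hp δ => ?_⟩
    · rw [coef_add, coef_add, smul_add, hf1 α β hab, hg1 α β hab]
    · rw [coef_add, inner_add_right, hf2 p hp δ, hg2 p hp δ, add_zero]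
  zero_mem' := by
    refine ⟨fun α β hab => ?_, fun p hp δ => ?_⟩
    · rw [coef_zero, coef_zero, smul_zero]
    · rw [coef_zero, inner_zero_right]
  smul_mem' := by
    rintro c f ⟨hf1, hf2⟩
    refine ⟨fun α β hab => ?_, fun p hp δ => ?_⟩
    · rw [coef_smul, coef_smul, hf1 α β hab, smul_comm]
    · rw [coef_smul, inner_smul_right, hf2 p hp δ, mul_zero]

theorem zdiff_inc (i : Fin d) (α β : Fin d → ℕ) : zdiff (inc i α) (inc i β) = zdiff α β := by
  funext j
  simp only [zdiff]
  by_cases hj : j = i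
  · subst hj; simp
  · rw [inc_ne hj, inc_ne hj]

theorem inc_eq_add_single (i : Fin d) (γ δ : Fin d → ℕ) : inc i (γ + δ) = γ + inc i δ := by
  funext j
  simp only [Pi.add_apply]
  by_cases hj : j = i
  · subst hj; simp; ring
  · rw [inc_ne hj, inc_ne hj, Pi.add_apply]

theorem Dz_mem_quasi (i : Fin d) {h : DA d K} (hh : h ∈ quasi Λ χ G) : Dz i h ∈ quasi Λ χ G := by
  obtain ⟨h1, h2⟩ := hh
  refine ⟨fun α β hab => ?_, fun p hp δ => ?_⟩
  · rw [coef_Dz, coef_Dz]
    have hab' : zdiff (inc i α) (inc i β) ∈ Λ := by rw [zdiff_inc]; exact hab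
    rw [h1 _ _ hab']
    congr 4
    exact zdiff_inc i α β
  · rw [coef_Dz, inc_eq_add_single]
    exact h2 p hp _

theorem gens_perp_quasi {f h : DA d K} (hf : f ∈ latticeGens Λ χ G) (hh : h ∈ quasi Λ χ G) :
    inner ℂ f h = 0 := by
  obtain ⟨h1, h2⟩ := hh
  rcases hf with ⟨α, β, v, hab, rfl⟩ | ⟨p, hp, rfl⟩
  · rw [inner_sub_left, inner_smul_left, inner_mono, inner_mono, h1 α β hab, inner_smul_right,
      sub_self]
  · rw [inner_mono]
    have := h2 p hp 0
    rwa [add_zero] at this

/-- monomials in the generated submodule -/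
theorem mono_mem_inc {S : Set (DA d K)} (i : Fin d) (α : Fin d → ℕ) (v : K)
    (h : mono α v ∈ closedSubmoduleGen S) : mono (inc i α) v ∈ closedSubmoduleGen S := by
  rw [← Mz_mono]
  exact gen_invariant S i _ h

theorem mono_mem_add {S : Set (DA d K)} (γ : Fin d → ℕ) (v : K)
    (h : mono γ v ∈ closedSubmoduleGen S) :
    ∀ (n : ℕ) (δ : Fin d → ℕ), deg δ = n → mono (γ + δ) v ∈ closedSubmoduleGen S := by
  intro n
  induction n with
  | zero =>
    intro δ hδ
    have : δ = 0 := by
      funext j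
      have := le_deg j δ
      simp only [Pi.zero_apply]
      omega
    rw [this, add_zero]; exact h
  | succ n ih =>
    intro δ hδ
    have : ∃ i, δ i ≠ 0 := by
      by_contra hcon
      push Not at hcon
      have : deg δ = 0 := Finset.sum_eq_zero fun j _ => hcon j
      omega
    obtain ⟨i, hi⟩ := this
    have h1 := deg_dec i δ hi
    have h2 := ih (dec i δ) (by omega)
    have h3 := mono_mem_inc i _ v h2
    rw [inc_eq_add_single, inc_dec i δ hi] at h3
    exact h3

theorem quasi_eq [CompleteSpace K] :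
    (closedSubmoduleGen (latticeGens Λ χ G))ᗮ = quasi Λ χ G := by
  apply le_antisymm
  · intro h hh
    rw [Submodule.mem_orthogonal] at hh
    refine ⟨fun α β hab => ?_, fun p hp δ => ?_⟩
    · apply ext_inner_left ℂ
      intro v
      have h1 := hh _ (subset_gen _ (Or.inl ⟨α, β, v, hab, rfl⟩))
      rw [inner_sub_left, inner_smul_left, inner_mono, inner_mono] at h1
      rw [inner_smul_right]
      exact sub_eq_zero.1 h1
    · have h1 : mono p.1 p.2 ∈ closedSubmoduleGen (latticeGens Λ χ G) :=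
        subset_gen _ (Or.inr ⟨p, hp, rfl⟩)
      have h2 := hh _ (mono_mem_add p.1 p.2 h1 _ δ rfl)
      rwa [inner_mono] at h2
  · have h1 : closedSubmoduleGen (latticeGens Λ χ G) ≤ (quasi Λ χ G)ᗮ := by
      apply gen_le
      · exact Submodule.isClosed_orthogonal _
      · intro i f hf
        rw [Submodule.mem_orthogonal'] at hf ⊢
        intro u hu
        rw [inner_Mz]
        exact hf _ (Dz_mem_quasi Λ χ G i hu)
      · intro f hf
        rw [SetLike.mem_coe, Submodule.mem_orthogonal']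
        intro u hu
        exact gens_perp_quasi Λ χ G hf hu
    intro h hh
    rw [Submodule.mem_orthogonal]
    intro u hu
    exact (Submodule.mem_orthogonal' _ _).1 (h1 hu) h hh

theorem mono_mem_homog (α : Fin d → ℕ) (v : K) : mono α v ∈ homog d K (deg α) := by
  intro β hβ
  apply mono_apply_ne
  intro h
  exact hβ (by rw [h])

theorem deg_eq_of_zdiff (hΛ : ∀ v ∈ Λ, ∑ j, v j = 0) {α β : Fin d → ℕ} (h : zdiff α β ∈ Λ) :
    deg α = deg β := by
  have h1 := hΛ _ h
  simp only [zdiff, Finset.sum_sub_distrib] at h1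
  unfold deg
  have h2 : (∑ j, (α j : ℤ)) = ∑ j, (β j : ℤ) := by linarith
  exact_mod_cast h2

theorem gen_graded [CompleteSpace K] (hΛ : ∀ v ∈ Λ, ∑ j, v j = 0) :
    IsGradedSubmodule (closedSubmoduleGen (latticeGens Λ χ G)) where
  closed := gen_closed _
  invariant := fun i f hf => gen_invariant _ i f hf
  graded := by
    set L := closedSubmoduleGen (latticeGens Λ χ G) with hL
    apply le_antisymm
    · rw [← Submodule.orthogonal_orthogonal_eq_closure]
      have h1 : (⨆ n, L ⊓ homog d K n)ᗮ ≤ Lᗮ := by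
        rw [hL, quasi_eq, ← hL]
        intro g hg
        rw [Submodule.mem_orthogonal] at hg
        have hmem : ∀ n, ∀ f ∈ L, f ∈ homog d K n → inner ℂ f g = 0 := by
          intro n f hf1 hf2
          exact hg f (Submodule.mem_iSup_of_mem n ⟨hf1, hf2⟩)
        refine ⟨fun α β hab => ?_, fun p hp δ => ?_⟩
        · apply ext_inner_left ℂ
          intro v
          have h1 : mono α v - χ ⟨zdiff α β, hab⟩ • mono β v ∈ L :=
            subset_gen _ (Or.inl ⟨α, β, v, hab, rfl⟩)
          have h2 : mono α v - χ ⟨zdiff α β, hab⟩ • mono β v ∈ homog d K (deg α) := by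
            apply Submodule.sub_mem _ (mono_mem_homog α v)
            apply Submodule.smul_mem
            rw [deg_eq_of_zdiff Λ hΛ hab]
            exact mono_mem_homog β v
          have h3 := hmem _ _ h1 h2
          rw [inner_sub_left, inner_smul_left, inner_mono, inner_mono] at h3
          rw [inner_smul_right]
          exact sub_eq_zero.1 h3
        · have h1 : mono p.1 p.2 ∈ L := subset_gen _ (Or.inr ⟨p, hp, rfl⟩)
          have h2 := hmem _ _ (mono_mem_add p.1 p.2 h1 _ δ rfl) (mono_mem_homog _ _)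
          rwa [inner_mono] at h2
      have h2 : Lᗮᗮ ≤ (⨆ n, L ⊓ homog d K n)ᗮᗮ := Submodule.orthogonal_le h1
      exact (Submodule.le_orthogonal_orthogonal L).trans h2
    · apply Submodule.topologicalClosure_minimal _ _ (gen_closed _)
      exact iSup_le fun n => inf_le_left

end

end Pool.Agent.Lib.MP_15f9af_an
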