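import Mathlib
import Pool.Agent.Lib.MP_15f9af_an.Space

/-!
# Drury–Arveson quotient modules: the definitions used in the statements
-/

namespace Pool.Agent.Lib.MP_15f9af_an.St

open scoped ENNReal

universe u

section general

variable {E : Type u} [NormedAddCommGroup E]

/-- The `n`-th approximation number (which is the `n`-th singular value on a Hilbert space):
the distance from `T` to the operators of rank at most `n`. -/
noncomputable def approxNumber [NormedSpace ℂ E] (T : E →L[ℂ] E) (n : ℕ) : ℝ :=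
  sInf {r : ℝ | ∃ F : E →L[ℂ] E,
    (∃ u : Fin n → E, ∀ x, F x ∈ Submodule.span ℂ (Set.range u)) ∧ r = ‖T - F‖}

/-- The Schatten class `S^p`: the singular values are `p`-summable. -/
def InSchatten [NormedSpace ℂ E] (p : ℝ) (T : E →L[ℂ] E) : Prop :=
  Summable fun n : ℕ => approxNumber T n ^ p

variable [InnerProductSpace ℂ E] [CompleteSpace E]

/-- The compression `S = P_{L^⊥} T|_{L^⊥}` of an operator `T` to the orthogonal complement of
`L`. -/
noncomputable def compress (L : Submodule ℂ E) (T : E →L[ℂ] E) : Lᗮ →L[ℂ] Lᗮ :=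
  Lᗮ.orthogonalProjectionOnto ∘L T ∘L Lᗮ.subtypeL

/-- The commutator `[S, T^*]`. -/
noncomputable def selfComm (S T : E →L[ℂ] E) : E →L[ℂ] E :=
  S ∘L ContinuousLinearMap.adjoint T - ContinuousLinearMap.adjoint T ∘L S

end general

/-- total degree of a multi-index -/
def deg {d : ℕ} (α : Fin d → ℕ) : ℕ := ∑ j, α j

/-- The Hilbert space `H²_d ⊗ K`, in the orthonormal basis `e_α = sqrt(|α|!/α!) z^α`:
the family `(f_α)` stands for the `K`-valued function `∑ f_α e_α`. -/
def H2 (d : ℕ) (K : Type u) [NormedAddCommGroup K] : Type u := lp (fun _ : Fin d → ℕ => K) 2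

noncomputable instance instN (d : ℕ) (K : Type u) [NormedAddCommGroup K] :
    NormedAddCommGroup (H2 d K) :=
  (inferInstance : NormedAddCommGroup (lp (fun _ : Fin d → ℕ => K) 2))

noncomputable instance instI (d : ℕ) (K : Type u) [NormedAddCommGroup K]
    [InnerProductSpace ℂ K] : InnerProductSpace ℂ (H2 d K) :=
  (inferInstance : InnerProductSpace ℂ (lp (fun _ : Fin d → ℕ => K) 2))

instance instC (d : ℕ) (K : Type u) [NormedAddCommGroup K] [CompleteSpace K] :
    CompleteSpace (H2 d K) :=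
  (inferInstance : CompleteSpace (lp (fun _ : Fin d → ℕ => K) 2))

section da

variable {d : ℕ} {K : Type u} [NormedAddCommGroup K]

/-- The coordinate `f_α` of `f` in the orthonormal basis `e_α`. -/
def co (f : H2 d K) (α : Fin d → ℕ) : K := (show lp (fun _ : Fin d → ℕ => K) 2 from f) α

variable [InnerProductSpace ℂ K]

/-- `f` is a homogeneous polynomial of degree `n` -/
def Homog (n : ℕ) (f : H2 d K) : Prop := ∀ α, deg α ≠ n → co f α = 0

/-- The function `z^α v`: as `‖z^α‖² = α!/|α|!`, it is `sqrt(α!/|α|!) v e_α`. -/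
noncomputable def mono (α : Fin d → ℕ) (v : K) : H2 d K :=
  open Classical in lp.single 2 α (((Real.sqrt ((∏ j, (α j).factorial : ℕ) /
    ((deg α).factorial : ℝ)) : ℝ) : ℂ) • v)

theorem exists_Mz (i : Fin d) : ∃ T : H2 d K →L[ℂ] H2 d K, ∀ f α,
    co (T f) α = ((Real.sqrt (α i / deg α) : ℝ) : ℂ) • co f (Function.update α i (α i - 1)) :=
  ⟨Pool.Agent.Lib.MP_15f9af_an.Mz i, fun _ _ => rfl⟩

/-- Multiplication by the coordinate function `z_i` on `H²_d ⊗ K`: the operator with
`M_{z_i} e_α = sqrt((α_i+1)/(|α|+1)) e_{α+e_i}`. -/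
noncomputable def Mz (i : Fin d) : H2 d K →L[ℂ] H2 d K := Classical.choose (exists_Mz i)

/-- Graded submodules: closed, invariant, and the closed span of the homogeneous parts. -/
def IsGradedSubmodule (L : Submodule ℂ (H2 d K)) : Prop :=
  IsClosed (L : Set (H2 d K)) ∧ (∀ i, ∀ f ∈ L, Mz i f ∈ L) ∧
    ∀ f ∈ L, f ∈ closure (Submodule.span ℂ {g | g ∈ L ∧ ∃ n, Homog n g} : Set (H2 d K))

/-- The closed submodule generated by a set of functions. -/
noncomputable def gen (S : Set (H2 d K)) : Submodule ℂ (H2 d K) :=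
  sInf {N | IsClosed (N : Set (H2 d K)) ∧ (∀ i, ∀ f ∈ N, Mz i f ∈ N) ∧ S ⊆ N}

/-- The dimension of `H_n = (P_n ⊗ K) ⊖ L_n`. -/
noncomputable def hilb (L : Submodule ℂ (H2 d K)) (n : ℕ) : ℕ :=
  Set.finrank ℂ {f : H2 d K | Homog n f ∧ ∀ g ∈ L, Homog n g → inner ℂ g f = 0}

/-- Douglas's property: all commutators `[S_i, S_j^*]` of the quotient by `L` lie in `S^p` for
every `p ≥ 1` larger than `dim(L) = deg p_L + 1`, `p_L` the Hilbert polynomial of the quotient
(if `p_L = 0`, for every `p ≥ 1`). -/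
def DouglasProperty [CompleteSpace K] (L : Submodule ℂ (H2 d K)) : Prop :=
  ∀ P : Polynomial ℚ, (∀ᶠ n : ℕ in Filter.atTop, (hilb L n : ℚ) = P.eval (n : ℚ)) →
    ∀ p : ℝ, 1 ≤ p → (P ≠ 0 → (P.natDegree : ℝ) + 1 < p) →
      ∀ i j, InSchatten p (selfComm (compress L (Mz i)) (compress L (Mz j)))

end da

/-- The closed submodule generated by the lattice binomials `z^α v - χ(α - β) z^β v`,
`α - β ∈ Λ`, `v ∈ K`, and by the `K`-valued monomials `z^γ u`, `(γ, u) ∈ G`. -/
noncomputable def latticeSubmodule {d : ℕ} {K : Type u} [NormedAddCommGroup K]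
    [InnerProductSpace ℂ K] (Λ : AddSubgroup (Fin d → ℤ)) (χ : (Fin d → ℤ) → ℂ)
    (G : Set ((Fin d → ℕ) × K)) : Submodule ℂ (H2 d K) :=
  gen ({f | ∃ (α β : Fin d → ℕ) (v : K), (fun j => (α j : ℤ) - β j) ∈ Λ ∧
      f = mono α v - χ (fun j => (α j : ℤ) - β j) • mono β v} ∪ {f | ∃ q ∈ G, f = mono q.1 q.2})

end Pool.Agent.Lib.MP_15f9af_an.St
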