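import Mathlib
import Pool.Agent.Lib.MP_15f9af_an.Statement
import Pool.Agent.Lib.MP_15f9af_an.Schatten
import Pool.Agent.Lib.MP_15f9af_an.Lattice

/-!
# Translation between the compact definitions of the statements and those of the library
-/

namespace Pool.Agent.Lib.MP_15f9af_an.St

open scoped ENNReal

universe u

section general

variable {E : Type u} [NormedAddCommGroup E] [NormedSpace ℂ E]

theorem rank_le_iff (F : E →L[ℂ] E) (n : ℕ) :
    (∃ u : Fin n → E, ∀ x, F x ∈ Submodule.span ℂ (Set.range u)) ↔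
      FiniteDimensional ℂ (LinearMap.range (F : E →ₗ[ℂ] E)) ∧
        Module.finrank ℂ (LinearMap.range (F : E →ₗ[ℂ] E)) ≤ n := by
  constructor
  · rintro ⟨u, hu⟩
    have hle : LinearMap.range (F : E →ₗ[ℂ] E) ≤ Submodule.span ℂ (Set.range u) := by
      rintro _ ⟨x, rfl⟩
      exact hu x
    have hfd : FiniteDimensional ℂ (Submodule.span ℂ (Set.range u)) :=
      FiniteDimensional.span_of_finite ℂ (Set.finite_range u)
    refine ⟨Submodule.finiteDimensional_of_le hle, (Submodule.finrank_mono hle).trans ?_⟩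
    have := finrank_range_le_card (R := ℂ) u
    simpa [Set.finrank] using this
  · rintro ⟨h1, h2⟩
    set V := LinearMap.range (F : E →ₗ[ℂ] E) with hV
    let b := Module.finBasis ℂ V
    refine ⟨fun i => if h : (i : ℕ) < Module.finrank ℂ V then (b ⟨i, h⟩ : E) else 0,
      fun x => ?_⟩
    have hx : F x ∈ V := ⟨x, rfl⟩
    have hmem : (⟨F x, hx⟩ : V) ∈ Submodule.span ℂ (Set.range b) := by
      rw [b.span_eq]; exact Submodule.mem_top
    have hmap : F x ∈ Submodule.map V.subtype (Submodule.span ℂ (Set.range b)) :=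
      ⟨_, hmem, rfl⟩
    rw [Submodule.map_span] at hmap
    refine Submodule.span_mono ?_ hmap
    rintro _ ⟨_, ⟨j, rfl⟩, rfl⟩
    refine ⟨⟨j, lt_of_lt_of_le j.2 h2⟩, ?_⟩
    simp

theorem approxNumber_eq (T : E →L[ℂ] E) (n : ℕ) :
    approxNumber T n = Pool.Agent.Lib.MP_15f9af_an.approxNumber T n := by
  unfold approxNumber Pool.Agent.Lib.MP_15f9af_an.approxNumber
  congr 1
  ext r
  simp only [Set.mem_ofPred_eq, rank_le_iff]
  constructor
  · rintro ⟨F, ⟨h1, h2⟩, h3⟩; exact ⟨F, h1, h2, h3⟩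
  · rintro ⟨F, h1, h2, h3⟩; exact ⟨F, ⟨h1, h2⟩, h3⟩

theorem inSchatten_iff (T : E →L[ℂ] E) (p : ℝ) :
    InSchatten p T ↔ Pool.Agent.Lib.MP_15f9af_an.InSchatten p T := by
  unfold InSchatten Pool.Agent.Lib.MP_15f9af_an.InSchatten
  simp only [approxNumber_eq]

end general

section da

variable {d : ℕ} {K : Type u} [NormedAddCommGroup K]

theorem co_eq (f : H2 d K) (α : Fin d → ℕ) : co f α = (show DA d K from f) α := rfl

theorem co_ext {f g : H2 d K} (h : ∀ α, co f α = co g α) : f = g := by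
  have : (show DA d K from f) = (show DA d K from g) := by
    ext α
    exact h α
  exact this

theorem deg_eq (α : Fin d → ℕ) : deg α = Pool.Agent.Lib.MP_15f9af_an.deg α := rfl

variable [InnerProductSpace ℂ K]

theorem co_Mz (i : Fin d) (f : H2 d K) (α : Fin d → ℕ) :
    co (Mz i f) α = ((Real.sqrt (α i / deg α) : ℝ) : ℂ) • co f (Function.update α i (α i - 1)) :=
  Classical.choose_spec (exists_Mz (K := K) i) f α

theorem Mz_eq (i : Fin d) :
    (Mz i : H2 d K →L[ℂ] H2 d K) = (Pool.Agent.Lib.MP_15f9af_an.Mz i : DA d K →L[ℂ] DA d K) := by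
  apply ContinuousLinearMap.ext
  intro f
  apply co_ext
  intro α
  rw [co_Mz]
  rfl

theorem mono_eq (α : Fin d → ℕ) (v : K) :
    (mono α v : H2 d K) = (Pool.Agent.Lib.MP_15f9af_an.mono α v : DA d K) := rfl

theorem homog_iff (n : ℕ) (f : H2 d K) :
    Homog n f ↔ (show DA d K from f) ∈ homog d K n := Iff.rfl

/-- the same subspace, seen in `DA d K` -/
def toLib (L : Submodule ℂ (H2 d K)) : Submodule ℂ (DA d K) := L

theorem invariant_iff (L : Submodule ℂ (H2 d K)) :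
    (∀ i : Fin d, ∀ f ∈ L, Mz i f ∈ L) ↔
      ∀ i : Fin d, ∀ f ∈ toLib L, Pool.Agent.Lib.MP_15f9af_an.Mz i f ∈ toLib L := by
  simp only [Mz_eq]
  exact Iff.rfl

theorem gen_eq (S : Set (H2 d K)) : toLib (gen S) = closedSubmoduleGen (S : Set (DA d K)) := by
  unfold gen closedSubmoduleGen
  simp only [Mz_eq]
  rfl

theorem span_homog_eq (L : Submodule ℂ (DA d K)) :
    Submodule.span ℂ {g : DA d K | g ∈ L ∧ ∃ n, g ∈ homog d K n} = ⨆ n, L ⊓ homog d K n := by
  apply le_antisymm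
  · rw [Submodule.span_le]
    rintro g ⟨hg, n, hn⟩
    exact (le_iSup (fun n => L ⊓ homog d K n) n) ⟨hg, hn⟩
  · rw [iSup_le_iff]
    rintro n g ⟨hg, hn⟩
    exact Submodule.subset_span ⟨hg, n, hn⟩

theorem graded_iff (L : Submodule ℂ (H2 d K)) :
    IsGradedSubmodule L ↔ Pool.Agent.Lib.MP_15f9af_an.IsGradedSubmodule (toLib L) := by
  unfold IsGradedSubmodule
  rw [invariant_iff]
  have hcl : (∀ f ∈ L, f ∈ closure (Submodule.span ℂ {g | g ∈ L ∧ ∃ n, Homog n g} :
      Set (H2 d K))) ↔ toLib L ≤ (⨆ n, toLib L ⊓ homog d K n).topologicalClosure := by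
    rw [← span_homog_eq]
    exact Iff.rfl
  rw [hcl]
  constructor
  · rintro ⟨h1, h2, h3⟩
    refine ⟨h1, h2, le_antisymm h3 ?_⟩
    refine Submodule.topologicalClosure_minimal _ (iSup_le fun n => ?_) h1
    rintro g ⟨hg, -⟩
    exact hg
  · rintro ⟨h1, h2, h3⟩
    exact ⟨h1, h2, h3.le⟩

theorem hilb_eq (L : Submodule ℂ (H2 d K)) (n : ℕ) :
    hilb L n = Module.finrank ℂ (Hpart (toLib L) n) := by
  have h : Submodule.span ℂ {f : DA d K | f ∈ homog d K n ∧
      ∀ g ∈ toLib L, g ∈ homog d K n → inner ℂ g f = 0} = Hpart (toLib L) n := by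
    rw [show {f : DA d K | f ∈ homog d K n ∧
      ∀ g ∈ toLib L, g ∈ homog d K n → inner ℂ g f = 0} = (Hpart (toLib L) n : Set (DA d K)) from ?_,
      Submodule.span_eq]
    ext f
    constructor
    · rintro ⟨h1, h2⟩
      refine ⟨h1, ?_⟩
      rw [SetLike.mem_coe, Submodule.mem_orthogonal]
      rintro g ⟨hg1, hg2⟩
      exact h2 g hg1 hg2
    · rintro ⟨h1, h2⟩
      refine ⟨h1, ?_⟩
      rw [SetLike.mem_coe, Submodule.mem_orthogonal] at h2
      intro g hg1 hg2
      exact h2 g ⟨hg1, hg2⟩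
  rw [← h]
  rfl

theorem douglas_of_localBound [CompleteSpace K] [FiniteDimensional ℂ K]
    (L : Submodule ℂ (H2 d K)) (hL : IsGradedSubmodule L) {C : ℝ} (hC : 0 ≤ C)
    (hloc : LocalBound (toLib L) C) : DouglasProperty L := by
  intro P hP p hp1 hp i j
  rw [inSchatten_iff]
  rw [Mz_eq, Mz_eq]
  simp only [hilb_eq] at hP
  exact inSchatten_of_localBound ((graded_iff L).1 hL) hC hloc P hP p hp1 hp i j

end da

section lattice

variable {d : ℕ} {K : Type u} [NormedAddCommGroup K] [InnerProductSpace ℂ K]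

/-- the additive character of `Λ` -/
noncomputable def chr (Λ : AddSubgroup (Fin d → ℤ)) (χ : (Fin d → ℤ) → ℂ)
    (hχ : ∀ u ∈ Λ, χ u ≠ 0 ∧ ∀ v ∈ Λ, χ (u + v) = χ u * χ v) : AddChar Λ ℂ where
  toFun := fun u => χ u
  map_zero_eq_one' := by
    have h := (hχ 0 Λ.zero_mem).2 0 Λ.zero_mem
    have h0 := (hχ 0 Λ.zero_mem).1
    rw [add_zero] at h
    have : χ 0 * (χ 0 - 1) = 0 := by rw [mul_sub, mul_one, sub_eq_zero]; exact h.symm
    rcases mul_eq_zero.1 this with h1 | h1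
    · exact absurd h1 h0
    · simpa [sub_eq_zero] using h1
  map_add_eq_mul' := by
    rintro ⟨u, hu⟩ ⟨v, hv⟩
    exact (hχ u hu).2 v hv

theorem lattice_eq (Λ : AddSubgroup (Fin d → ℤ)) (χ : (Fin d → ℤ) → ℂ)
    (hχ : ∀ u ∈ Λ, χ u ≠ 0 ∧ ∀ v ∈ Λ, χ (u + v) = χ u * χ v) (G : Set ((Fin d → ℕ) × K)) :
    toLib (latticeSubmodule Λ χ G) = closedSubmoduleGen (latticeGens Λ (chr Λ χ hχ) G) := by
  unfold latticeSubmodule
  rw [gen_eq]
  congr 1
  unfold latticeGens
  congr 1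
  ext f
  constructor
  · rintro ⟨α, β, v, h, hf⟩
    exact ⟨α, β, v, h, hf⟩
  · rintro ⟨α, β, v, h, hf⟩
    exact ⟨α, β, v, h, hf⟩

end lattice

end Pool.Agent.Lib.MP_15f9af_an.St
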