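import Mathlib
import Pool.Agent.Lib.MP_15f9af_an.Lattice

/-!
# The local bound for lattice submodules
-/

namespace Pool.Agent.Lib.MP_15f9af_an

open scoped ENNReal ComplexConjugate

variable {d : ℕ} {K : Type*} [NormedAddCommGroup K] [InnerProductSpace ℂ K]

/-- `V_α = {v : z^α ⊗ v ∈ L}` -/
def Vsp (L : Submodule ℂ (DA d K)) (α : Fin d → ℕ) : Submodule ℂ K where
  carrier := {v | mono α v ∈ L}
  add_mem' := by
    intro v w hv hw
    have : mono α (v + w) = mono α v + (mono α w : DA d K) := by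
      classical
      unfold mono
      rw [smul_add, lp.single_add]
    change mono α (v + w) ∈ L
    rw [this]; exact L.add_mem hv hw
  zero_mem' := by
    have : mono α (0 : K) = (0 : DA d K) := by
      classical
      unfold mono
      rw [smul_zero, lp.single_zero]
    change mono α (0 : K) ∈ L
    rw [this]; exact L.zero_mem
  smul_mem' := by
    intro c v hv
    have : mono α (c • v) = c • (mono α v : DA d K) := by
      classical
      unfold mono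
      rw [smul_comm, lp.single_smul]
    change mono α (c • v) ∈ L
    rw [this]; exact L.smul_mem c hv

/-- A monotone family of subspaces of a finite dimensional space, indexed by `ℕ^d`, is
eventually constant in each coordinate direction. -/
theorem noether_bound [FiniteDimensional ℂ K] (V : (Fin d → ℕ) → Submodule ℂ K)
    (hV : Monotone V) (i : Fin d) : ∃ B : ℕ, ∀ α : Fin d → ℕ, B < α i → V α ≤ V (dec i α) := by
  by_contra hcon
  push Not at hcon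
  choose f hf1 hf2 using hcon
  obtain ⟨g, hg⟩ := (wellQuasiOrdered_le (α := Fin d → ℕ)).exists_monotone_subseq f
  have hmono : Monotone fun n => V (f (g n)) := by
    intro a b hab
    exact hV (hg a b hab)
  obtain ⟨k0, hk0⟩ := monotone_stabilizes_iff_noetherian.2
    (inferInstance : IsNoetherian ℂ K) ⟨fun n => V (f (g n)), hmono⟩
  -- choose k large
  obtain ⟨k, hk1, hk2⟩ : ∃ k, k0 ≤ k ∧ f (g k0) i < g k := by
    refine ⟨max k0 (f (g k0) i + 1), le_max_left _ _, ?_⟩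
    have h1 : max k0 (f (g k0) i + 1) ≤ g (max k0 (f (g k0) i + 1)) :=
      (g.strictMono).id_le _
    omega
  have h1 : f (g k0) ≤ dec i (f (g k)) := by
    intro j
    have h2 := hg k0 k hk1 j
    by_cases hj : j = i
    · subst hj
      have h3 := hf1 (g k)
      have h4 : f (g k0) j ≤ f (g k) j - 1 := by omega
      rw [dec_same]
      exact h4
    · rw [dec_ne hj]; exact h2
  have h2 : V (f (g k)) = V (f (g k0)) := (hk0 k hk1).symm
  exact hf2 (g k) (h2.le.trans (hV h1))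

theorem Vsp_mono {S : Set (DA d K)} : Monotone (Vsp (closedSubmoduleGen S)) := by
  intro α β hαβ v hv
  have h1 : mono (α + (fun j => β j - α j)) v ∈ closedSubmoduleGen S :=
    mono_mem_add α v hv _ _ rfl
  have h2 : α + (fun j => β j - α j) = β := by
    funext j
    have h3 : α j ≤ β j := hαβ j
    simp only [Pi.add_apply]
    omega
  rw [h2] at h1
  exact h1

theorem zdiff_self (α : Fin d → ℕ) : zdiff α α = 0 := by
  funext j; simp [zdiff]

theorem zdiff_add (α β γ : Fin d → ℕ) : zdiff α β + zdiff β γ = zdiff α γ := by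
  funext j; simp [zdiff]

theorem zdiff_neg (α β : Fin d → ℕ) : -zdiff α β = zdiff β α := by
  funext j; simp [zdiff]

theorem zdiff_dec (i : Fin d) (α β : Fin d → ℕ) (ha : α i ≠ 0) (hb : β i ≠ 0) :
    zdiff (dec i α) (dec i β) = zdiff α β := by
  rw [← zdiff_inc i, inc_dec i α ha, inc_dec i β hb]

section

variable (Λ : AddSubgroup (Fin d → ℤ)) (χ : AddChar Λ ℂ) (G : Set ((Fin d → ℕ) × K))

theorem zdiff_symm_mem {α β : Fin d → ℕ} (h : zdiff α β ∈ Λ) : zdiff β α ∈ Λ := by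
  rw [← zdiff_neg]; exact Λ.neg_mem h

theorem zdiff_trans_mem {α β γ : Fin d → ℕ} (h1 : zdiff α β ∈ Λ) (h2 : zdiff β γ ∈ Λ) :
    zdiff α γ ∈ Λ := by
  rw [← zdiff_add α β γ]; exact Λ.add_mem h1 h2

theorem char_mul {α β γ : Fin d → ℕ} (h1 : zdiff α β ∈ Λ) (h2 : zdiff β γ ∈ Λ)
    (h3 : zdiff α γ ∈ Λ) :
    χ ⟨zdiff α γ, h3⟩ = χ ⟨zdiff α β, h1⟩ * χ ⟨zdiff β γ, h2⟩ := by
  rw [← AddChar.map_add_eq_mul]
  congr 1
  apply Subtype.ext
  exact (zdiff_add α β γ).symm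

theorem char_self (α : Fin d → ℕ) (h : zdiff α α ∈ Λ) : χ ⟨zdiff α α, h⟩ = 1 := by
  have : (⟨zdiff α α, h⟩ : Λ) = 0 := Subtype.ext (zdiff_self α)
  rw [this, AddChar.map_zero_eq_one]

open Classical in
/-- the extension of `α ↦ coef h (α - e_i)` to whole classes -/
noncomputable def Ht (h : DA d K) (i : Fin d) (α : Fin d → ℕ) : K :=
  if hα : ∃ β : Fin d → ℕ, ∃ _ : zdiff α β ∈ Λ, β i ≠ 0 then
    conj (χ ⟨zdiff α hα.choose, hα.choose_spec.choose⟩) • coef h (dec i hα.choose)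
  else 0

theorem Ht_eq {h : DA d K} (hh : h ∈ quasi Λ χ G) (i : Fin d) {α β : Fin d → ℕ}
    (hab : zdiff α β ∈ Λ) (hb : β i ≠ 0) :
    Ht Λ χ h i α = conj (χ ⟨zdiff α β, hab⟩) • coef h (dec i β) := by
  classical
  have hα : ∃ β : Fin d → ℕ, ∃ _ : zdiff α β ∈ Λ, β i ≠ 0 := ⟨β, hab, hb⟩
  unfold Ht
  rw [dif_pos hα]
  obtain ⟨hz, hne⟩ := hα.choose_spec
  set β' := hα.choose with hβ'
  have hββ : zdiff β' β ∈ Λ := zdiff_trans_mem Λ (zdiff_symm_mem Λ hz) hab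
  have hdd : zdiff (dec i β') (dec i β) ∈ Λ := by
    rw [zdiff_dec i β' β hne hb]; exact hββ
  have h1 := hh.1 (dec i β') (dec i β) hdd
  have h2 : χ ⟨zdiff (dec i β') (dec i β), hdd⟩ = χ ⟨zdiff β' β, hββ⟩ := by
    congr 1
    exact Subtype.ext (zdiff_dec i β' β hne hb)
  rw [h1, h2, smul_smul, ← map_mul, ← char_mul Λ χ hz hββ hab]

theorem Ht_self {h : DA d K} (hh : h ∈ quasi Λ χ G) (i : Fin d) {α : Fin d → ℕ} (ha : α i ≠ 0) :
    Ht Λ χ h i α = coef h (dec i α) := by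
  have h0 : zdiff α α ∈ Λ := by rw [zdiff_self]; exact Λ.zero_mem
  rw [Ht_eq Λ χ G hh i h0 ha, char_self, map_one, one_smul]

theorem Ht_quasi {h : DA d K} (hh : h ∈ quasi Λ χ G) (i : Fin d) {α α' : Fin d → ℕ}
    (hab : zdiff α α' ∈ Λ) :
    Ht Λ χ h i α = conj (χ ⟨zdiff α α', hab⟩) • Ht Λ χ h i α' := by
  classical
  by_cases hα : ∃ β : Fin d → ℕ, ∃ _ : zdiff α' β ∈ Λ, β i ≠ 0
  · obtain ⟨β, hz, hne⟩ := hα
    have hz' : zdiff α β ∈ Λ := zdiff_trans_mem Λ hab hz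
    rw [Ht_eq Λ χ G hh i hz' hne, Ht_eq Λ χ G hh i hz hne, smul_smul, ← map_mul,
      ← char_mul Λ χ hab hz hz']
  · have hα' : ¬ ∃ β : Fin d → ℕ, ∃ _ : zdiff α β ∈ Λ, β i ≠ 0 := by
      rintro ⟨β, hz, hne⟩
      exact hα ⟨β, zdiff_trans_mem Λ (zdiff_symm_mem Λ hab) hz, hne⟩
    unfold Ht
    rw [dif_neg hα, dif_neg hα', smul_zero]

theorem coef_Mz {h : DA d K} (hh : h ∈ quasi Λ χ G) (i : Fin d) {N : ℕ} {α : Fin d → ℕ}
    (hα : deg α = N) : coef (Mz i h) α = (((α i : ℝ) / N : ℝ) : ℂ) • Ht Λ χ h i α := by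
  by_cases h0 : α i = 0
  · unfold coef
    rw [Mz_apply_zero i h α h0, smul_zero, h0, Nat.cast_zero, zero_div, Complex.ofReal_zero,
      zero_smul]
  · obtain ⟨β, rfl⟩ : ∃ β, α = inc i β := ⟨dec i α, (inc_dec i α h0).symm⟩
    rw [Ht_self Λ χ G hh i h0, dec_inc]
    unfold coef
    rw [Mz_apply_inc, zw_inc, smul_smul, smul_smul, Real.sqrt_mul (zw_pos β).le]
    have hd : N = deg β + 1 := by rw [← hα, deg_inc]
    subst hd
    rw [inc_same]
    congr 1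
    rw [← Complex.ofReal_mul, ← Complex.ofReal_mul]
    congr 1
    have h1 : Real.sqrt (((β i + 1 : ℕ) : ℝ) / ((deg β + 1 : ℕ) : ℝ)) *
        Real.sqrt (((β i + 1 : ℕ) : ℝ) / ((deg β + 1 : ℕ) : ℝ)) =
        ((β i + 1 : ℕ) : ℝ) / ((deg β + 1 : ℕ) : ℝ) := Real.mul_self_sqrt (by positivity)
    calc Real.sqrt (zw β) * Real.sqrt (((β i + 1 : ℕ) : ℝ) / ((deg β + 1 : ℕ) : ℝ)) *
          Real.sqrt (((β i + 1 : ℕ) : ℝ) / ((deg β + 1 : ℕ) : ℝ))
        = Real.sqrt (zw β) * (Real.sqrt (((β i + 1 : ℕ) : ℝ) / ((deg β + 1 : ℕ) : ℝ)) *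
          Real.sqrt (((β i + 1 : ℕ) : ℝ) / ((deg β + 1 : ℕ) : ℝ))) := by ring
      _ = _ := by rw [h1]; ring

/-- the class of a multi-index -/
def cls (α : Fin d → ℕ) : (Fin d → ℤ) ⧸ Λ := QuotientAddGroup.mk (fun j => (α j : ℤ))

theorem cls_eq_iff {α β : Fin d → ℕ} : cls Λ α = cls Λ β ↔ zdiff β α ∈ Λ := by
  unfold cls
  rw [QuotientAddGroup.eq]
  have : -(fun j => (α j : ℤ)) + (fun j => (β j : ℤ)) = zdiff β α := by
    funext j
    simp only [Pi.add_apply, Pi.neg_apply, zdiff]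
    ring
  rw [this]

/-- multi-indices of degree `N` -/
noncomputable def degFin (d N : ℕ) : Finset (Fin d → ℕ) := (finite_deg (d := d) N).toFinset

theorem mem_degFin {N : ℕ} {α : Fin d → ℕ} : α ∈ degFin d N ↔ deg α = N := by
  unfold degFin
  rw [Set.Finite.mem_toFinset]
  rfl

open Classical in
/-- the class finset -/
noncomputable def clsFin (N : ℕ) (w : (Fin d → ℤ) ⧸ Λ) : Finset (Fin d → ℕ) :=
  (degFin d N).filter (fun α => cls Λ α = w)

theorem mem_clsFin {N : ℕ} {w : (Fin d → ℤ) ⧸ Λ} {α : Fin d → ℕ} :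
    α ∈ clsFin Λ N w ↔ deg α = N ∧ cls Λ α = w := by
  classical
  simp only [clsFin, Finset.mem_filter, mem_degFin]

theorem isClass_clsFin (hΛ : ∀ v ∈ Λ, ∑ j, v j = 0) (N : ℕ) (w : (Fin d → ℤ) ⧸ Λ) :
    IsClass Λ (clsFin Λ N w) where
  diff := by
    intro α hα β hβ
    rw [mem_clsFin] at hα hβ
    exact (cls_eq_iff Λ).1 (hβ.2.trans hα.2.symm)
  move := by
    intro α hα α' h
    rw [mem_clsFin] at hα ⊢
    refine ⟨?_, ?_⟩
    · rw [deg_eq_of_zdiff Λ hΛ h]; exact hα.1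
    · rw [← hα.2]
      exact (cls_eq_iff Λ).2 (zdiff_symm_mem Λ h)

theorem tau_exchange {h : DA d K} (hh : h ∈ quasi Λ χ G) (i : Fin d) (N : ℕ)
    (w : (Fin d → ℤ) ⧸ Λ) (α : Fin d → ℕ) (hα : α ∈ clsFin Λ N w) (β : Fin d → ℕ)
    (hβ : β ∈ clsFin Λ N w) (α' : Fin d → ℕ) (hα' : α' ∈ clsFin Λ N w) (β' : Fin d → ℕ)
    (hβ' : β' ∈ clsFin Λ N w) (hsum : ∀ j, α j + β j = α' j + β' j) :
    ‖Ht Λ χ h i α‖ ^ 2 * ‖Ht Λ χ h i β‖ ^ 2 = ‖Ht Λ χ h i α'‖ ^ 2 * ‖Ht Λ χ h i β'‖ ^ 2 := by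
  rw [mem_clsFin] at hα hβ hα' hβ'
  have h1 : zdiff α α' ∈ Λ := (cls_eq_iff Λ).1 (hα'.2.trans hα.2.symm)
  have h2 : zdiff β β' ∈ Λ := (cls_eq_iff Λ).1 (hβ'.2.trans hβ.2.symm)
  rw [Ht_quasi Λ χ G hh i h1, Ht_quasi Λ χ G hh i h2, norm_smul, norm_smul]
  have h3 : χ ⟨zdiff α α', h1⟩ * χ ⟨zdiff β β', h2⟩ = 1 := by
    rw [← AddChar.map_add_eq_mul]
    have : (⟨zdiff α α', h1⟩ : Λ) + ⟨zdiff β β', h2⟩ = 0 := by
      apply Subtype.ext
      funext j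
      have := hsum j
      simp only [AddSubgroup.coe_add, Pi.add_apply, zdiff, AddSubgroup.coe_zero, Pi.zero_apply]
      omega
    rw [this, AddChar.map_zero_eq_one]
  have h4 : ‖conj (χ ⟨zdiff α α', h1⟩)‖ * ‖conj (χ ⟨zdiff β β', h2⟩)‖ = 1 := by
    rw [← norm_mul, ← map_mul, h3, map_one, norm_one]
  calc (‖conj (χ ⟨zdiff α α', h1⟩)‖ * ‖Ht Λ χ h i α'‖) ^ 2 *
        (‖conj (χ ⟨zdiff β β', h2⟩)‖ * ‖Ht Λ χ h i β'‖) ^ 2
      = (‖conj (χ ⟨zdiff α α', h1⟩)‖ * ‖conj (χ ⟨zdiff β β', h2⟩)‖) ^ 2 *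
        (‖Ht Λ χ h i α'‖ ^ 2 * ‖Ht Λ χ h i β'‖ ^ 2) := by ring
    _ = _ := by rw [h4]; ring

end

end Pool.Agent.Lib.MP_15f9af_an
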