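import Mathlib
import Pool.Agent.Lib.MP_15f9af_an.Local

/-!
# The local bound for lattice submodules (assembly)
-/

namespace Pool.Agent.Lib.MP_15f9af_an

open scoped ENNReal ComplexConjugate

variable {d : ℕ} {K : Type*} [NormedAddCommGroup K] [InnerProductSpace ℂ K]

section

variable (Λ : AddSubgroup (Fin d → ℤ)) (χ : AddChar Λ ℂ) (G : Set ((Fin d → ℕ) × K))

/-- the weights `q(α) = ‖H̃(α)‖²/α!` -/
noncomputable def qw (h : DA d K) (i : Fin d) (α : Fin d → ℕ) : ℝ :=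
  ‖Ht Λ χ h i α‖ ^ 2 / mfact α

/-- the class mean of `α_i` -/
noncomputable def cmean (h : DA d K) (i : Fin d) (N : ℕ) (w : (Fin d → ℤ) ⧸ Λ) : ℝ :=
  (∑ α ∈ clsFin Λ N w, qw Λ χ h i α * α i) / ∑ α ∈ clsFin Λ N w, qw Λ χ h i α

/-- good classes: no monomial obstruction -/
def Good (h : DA d K) (i : Fin d) (α : Fin d → ℕ) : Prop :=
  ∀ p ∈ G, ∀ δ : Fin d → ℕ, zdiff (p.1 + δ) α ∈ Λ → inner ℂ p.2 (Ht Λ χ h i (p.1 + δ)) = 0

theorem good_congr {h : DA d K} {i : Fin d} {α β : Fin d → ℕ} (hab : zdiff α β ∈ Λ)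
    (hg : Good Λ χ G h i β) : Good Λ χ G h i α := by
  intro p hp δ hz
  exact hg p hp δ (zdiff_trans_mem Λ hz hab)

open Classical in
/-- coefficients of the approximant -/
noncomputable def kf (h : DA d K) (i : Fin d) (N : ℕ) (α : Fin d → ℕ) : K :=
  if deg α = N ∧ Good Λ χ G h i α then
    (((cmean Λ χ h i N (cls Λ α)) / N : ℝ) : ℂ) • Ht Λ χ h i α
  else 0

/-- the approximant -/
noncomputable def kapp (h : DA d K) (i : Fin d) (N : ℕ) : DA d K :=
  ⟨fun α => (((Real.sqrt (zw α))⁻¹ : ℝ) : ℂ) • kf Λ χ G h i N α, by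
    refine (memℓp_zero ?_).of_exponent_ge zero_le
    apply (finite_deg (d := d) N).subset
    intro α hα
    by_contra hne
    apply hα
    have : deg α ≠ N := hne
    unfold kf
    rw [if_neg (fun h => this h.1), smul_zero]⟩

theorem kapp_apply (h : DA d K) (i : Fin d) (N : ℕ) (α : Fin d → ℕ) :
    kapp Λ χ G h i N α = (((Real.sqrt (zw α))⁻¹ : ℝ) : ℂ) • kf Λ χ G h i N α := rfl

theorem coef_kapp (h : DA d K) (i : Fin d) (N : ℕ) (α : Fin d → ℕ) :
    coef (kapp Λ χ G h i N) α = kf Λ χ G h i N α := by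
  unfold coef
  rw [kapp_apply, smul_smul, ← Complex.ofReal_mul,
    mul_inv_cancel₀ (Real.sqrt_pos.2 (zw_pos α)).ne', Complex.ofReal_one, one_smul]

theorem kapp_mem (hΛ : ∀ v ∈ Λ, ∑ j, v j = 0) {h : DA d K} (hh : h ∈ quasi Λ χ G) (i : Fin d)
    (N : ℕ) : kapp Λ χ G h i N ∈ quasi Λ χ G := by
  classical
  refine ⟨fun α β hab => ?_, fun p hp δ => ?_⟩
  · rw [coef_kapp, coef_kapp]
    unfold kf
    have hd : deg α = deg β := deg_eq_of_zdiff Λ hΛ hab
    by_cases hc : deg β = N ∧ Good Λ χ G h i β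
    · rw [if_pos hc, if_pos ⟨hd.trans hc.1, good_congr Λ χ G hab hc.2⟩,
        Ht_quasi Λ χ G hh i hab, (cls_eq_iff Λ).2 (zdiff_symm_mem Λ hab)]
      exact smul_comm _ _ _
    · rw [if_neg hc, if_neg, smul_zero]
      rintro ⟨h1, h2⟩
      exact hc ⟨hd.symm.trans h1, good_congr Λ χ G (zdiff_symm_mem Λ hab) h2⟩
  · rw [coef_kapp]
    unfold kf
    split_ifs with hc
    · rw [inner_smul_right, hc.2 p hp δ (by rw [zdiff_self]; exact Λ.zero_mem), mul_zero]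
    · rw [inner_zero_right]

/-- In a bad class the exponent `α_i` is bounded. -/
theorem bad_bound [CompleteSpace K] {h : DA d K} (hh : h ∈ quasi Λ χ G) (i : Fin d) (B : ℕ)
    (hB : ∀ α : Fin d → ℕ, B < α i → Vsp (closedSubmoduleGen (latticeGens Λ χ G)) α ≤
      Vsp (closedSubmoduleGen (latticeGens Λ χ G)) (dec i α))
    (α : Fin d → ℕ) (hbad : ¬ Good Λ χ G h i α) : α i ≤ B := by
  by_contra hlt
  push Not at hlt
  apply hbad
  intro p hp δ hz
  have hne : α i ≠ 0 := by omega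
  -- `z^α ⊗ v ∈ L`
  have h1 : mono (p.1 + δ) p.2 ∈ closedSubmoduleGen (latticeGens Λ χ G) :=
    mono_mem_add p.1 p.2 (subset_gen _ (Or.inr ⟨p, hp, rfl⟩)) _ δ rfl
  have hz' : zdiff α (p.1 + δ) ∈ Λ := zdiff_symm_mem Λ hz
  have h2 : mono α p.2 - χ ⟨zdiff α (p.1 + δ), hz'⟩ • mono (p.1 + δ) p.2 ∈
      closedSubmoduleGen (latticeGens Λ χ G) :=
    subset_gen _ (Or.inl ⟨α, p.1 + δ, p.2, hz', rfl⟩)
  have h3 : mono α p.2 ∈ closedSubmoduleGen (latticeGens Λ χ G) := by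
    have := Submodule.add_mem _ h2 (Submodule.smul_mem _ (χ ⟨zdiff α (p.1 + δ), hz'⟩) h1)
    simpa using this
  have h4 : mono (dec i α) p.2 ∈ closedSubmoduleGen (latticeGens Λ χ G) := hB α hlt h3
  have h5 : h ∈ (closedSubmoduleGen (latticeGens Λ χ G))ᗮ := by rw [quasi_eq]; exact hh
  have h6 : inner ℂ p.2 (coef h (dec i α)) = 0 := by
    rw [← inner_mono]
    exact (Submodule.mem_orthogonal _ _).1 h5 _ h4
  rw [Ht_eq Λ χ G hh i hz hne, inner_smul_right, h6, mul_zero]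

/-- pointwise size of the error -/
theorem err_apply {h : DA d K} (hh : h ∈ quasi Λ χ G) (i : Fin d) {N : ℕ} {α : Fin d → ℕ}
    (hα : deg α = N) (c : ℝ) (hc : kf Λ χ G h i N α = ((c / N : ℝ) : ℂ) • Ht Λ χ h i α) :
    ‖(Mz i h - kapp Λ χ G h i N) α‖ ^ 2 =
      ((N.factorial : ℝ) / (N : ℝ) ^ 2) * (qw Λ χ h i α * ((α i : ℝ) - c) ^ 2) := by
  have hz : 0 < Real.sqrt (zw α) := Real.sqrt_pos.2 (zw_pos α)
  have h1 : Mz i h α = (((Real.sqrt (zw α))⁻¹ : ℝ) : ℂ) • coef (Mz i h) α := by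
    unfold coef
    rw [smul_smul, ← Complex.ofReal_mul, inv_mul_cancel₀ hz.ne', Complex.ofReal_one, one_smul]
  rw [lp.coeFn_sub, Pi.sub_apply, h1, kapp_apply, coef_Mz Λ χ G hh i hα, hc, ← smul_sub,
    ← sub_smul, norm_smul, norm_smul, ← Complex.ofReal_sub, Complex.norm_real, Complex.norm_real,
    Real.norm_eq_abs, Real.norm_eq_abs]
  rw [mul_pow, mul_pow, sq_abs, sq_abs, inv_pow, Real.sq_sqrt (zw_pos α).le]
  unfold zw qw
  rw [hα]
  have hm : (mfact α : ℝ) ≠ 0 := by exact_mod_cast (mfact_pos α).ne'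
  have hN : (N.factorial : ℝ) ≠ 0 := by exact_mod_cast (Nat.factorial_pos N).ne'
  rw [inv_div, ← sub_div, div_pow]
  field_simp

/-- the weight of `h(α - e_i)` in terms of `q` -/
theorem base_apply {h : DA d K} (hh : h ∈ quasi Λ χ G) (i : Fin d) {N : ℕ} {α : Fin d → ℕ}
    (hα : deg α = N) (h0 : α i ≠ 0) :
    ‖h (dec i α)‖ ^ 2 = ((N.factorial : ℝ) / N) * (qw Λ χ h i α * (α i : ℝ)) := by
  obtain ⟨β, rfl⟩ : ∃ β, α = inc i β := ⟨dec i α, (inc_dec i α h0).symm⟩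
  unfold qw
  rw [Ht_self Λ χ G hh i h0, dec_inc]
  unfold coef
  have hN : N = deg β + 1 := by rw [← hα, deg_inc]
  subst hN
  rw [norm_smul, Complex.norm_real, Real.norm_eq_abs, mul_pow, sq_abs,
    Real.sq_sqrt (zw_pos β).le, mfact_inc, inc_same, Nat.factorial_succ]
  unfold zw
  have hm : (mfact β : ℝ) ≠ 0 := by exact_mod_cast (mfact_pos β).ne'
  have hN : ((deg β).factorial : ℝ) ≠ 0 := by exact_mod_cast (Nat.factorial_pos _).ne'
  have h1 : ((β i + 1 : ℕ) : ℝ) ≠ 0 := by positivity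
  have h2 : ((deg β + 1 : ℕ) : ℝ) ≠ 0 := by positivity
  push_cast at h1 h2 ⊢
  field_simp

theorem qw_nonneg (h : DA d K) (i : Fin d) (α : Fin d → ℕ) : 0 ≤ qw Λ χ h i α := by
  unfold qw; positivity

/-- the class-wise estimate -/
theorem class_estimate {h : DA d K} (hh : h ∈ quasi Λ χ G) (hΛ : ∀ v ∈ Λ, ∑ j, v j = 0)
    (i : Fin d) (Cv : ℝ) (hCv0 : 0 ≤ Cv)
    (hCv : ∀ X : Finset (Fin d → ℕ), IsClass Λ X → ∀ τ : (Fin d → ℕ) → ℝ,
      (∀ α, 0 ≤ τ α) →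
      (∀ α ∈ X, ∀ β ∈ X, ∀ α' ∈ X, ∀ β' ∈ X, (∀ j, α j + β j = α' j + β' j) →
        τ α * τ β = τ α' * τ β') →
      ∑ α ∈ X, τ α / mfact α * ((α i : ℝ) -
          (∑ α ∈ X, τ α / mfact α * α i) / ∑ α ∈ X, τ α / mfact α) ^ 2 ≤
        Cv * ∑ α ∈ X, τ α / mfact α * α i)
    (B : ℕ) (hbad : ∀ α : Fin d → ℕ, ¬ Good Λ χ G h i α → α i ≤ B)
    (N : ℕ) (w : (Fin d → ℤ) ⧸ Λ) :
    ∑ α ∈ clsFin Λ N w, ‖(Mz i h - kapp Λ χ G h i N) α‖ ^ 2 ≤
      ((Cv + B) / N) * ∑ α ∈ clsFin Λ N w, ((N.factorial : ℝ) / N) * (qw Λ χ h i α * (α i : ℝ)) := by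
  classical
  have hF0 : (0 : ℝ) ≤ (N.factorial : ℝ) / (N : ℝ) ^ 2 := by positivity
  by_cases hgood : ∀ α ∈ clsFin Λ N w, Good Λ χ G h i α
  · have h1 : ∀ α ∈ clsFin Λ N w, ‖(Mz i h - kapp Λ χ G h i N) α‖ ^ 2 =
        ((N.factorial : ℝ) / (N : ℝ) ^ 2) *
          (qw Λ χ h i α * ((α i : ℝ) - cmean Λ χ h i N w) ^ 2) := by
      intro α hα
      have hα' := (mem_clsFin Λ).1 hα
      apply err_apply Λ χ G hh i hα'.1
      unfold kf
      rw [if_pos ⟨hα'.1, hgood α hα⟩, hα'.2]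
    rw [Finset.sum_congr rfl h1, ← Finset.mul_sum, ← Finset.mul_sum]
    have h2 := hCv (clsFin Λ N w) (isClass_clsFin Λ hΛ N w) (fun α => ‖Ht Λ χ h i α‖ ^ 2)
      (fun α => sq_nonneg _) (tau_exchange Λ χ G hh i N w)
    have h3 : ∑ α ∈ clsFin Λ N w, qw Λ χ h i α * ((α i : ℝ) - cmean Λ χ h i N w) ^ 2 ≤
        Cv * ∑ α ∈ clsFin Λ N w, qw Λ χ h i α * (α i : ℝ) := h2
    have h4 : 0 ≤ ∑ α ∈ clsFin Λ N w, qw Λ χ h i α * (α i : ℝ) :=
      Finset.sum_nonneg fun α _ => mul_nonneg (qw_nonneg Λ χ h i α) (Nat.cast_nonneg _)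
    calc (N.factorial : ℝ) / (N : ℝ) ^ 2 *
          ∑ α ∈ clsFin Λ N w, qw Λ χ h i α * ((α i : ℝ) - cmean Λ χ h i N w) ^ 2
        ≤ (N.factorial : ℝ) / (N : ℝ) ^ 2 *
          (Cv * ∑ α ∈ clsFin Λ N w, qw Λ χ h i α * (α i : ℝ)) :=
          mul_le_mul_of_nonneg_left h3 hF0
      _ ≤ (N.factorial : ℝ) / (N : ℝ) ^ 2 *
          ((Cv + B) * ∑ α ∈ clsFin Λ N w, qw Λ χ h i α * (α i : ℝ)) := by
          apply mul_le_mul_of_nonneg_left _ hF0
          apply mul_le_mul_of_nonneg_right _ h4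
          have : (0 : ℝ) ≤ B := Nat.cast_nonneg _
          linarith
      _ = _ := by
          rw [sq]
          ring
  · push Not at hgood
    obtain ⟨α0, hα0, hb0⟩ := hgood
    have hall : ∀ α ∈ clsFin Λ N w, ¬ Good Λ χ G h i α := by
      intro α hα hg
      apply hb0
      apply good_congr Λ χ G _ hg
      rw [mem_clsFin] at hα hα0
      exact (cls_eq_iff Λ).1 (hα.2.trans hα0.2.symm)
    have h1 : ∀ α ∈ clsFin Λ N w, ‖(Mz i h - kapp Λ χ G h i N) α‖ ^ 2 ≤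
        ((Cv + B) / N) * (((N.factorial : ℝ) / N) * (qw Λ χ h i α * (α i : ℝ))) := by
      intro α hα
      have hα' := (mem_clsFin Λ).1 hα
      have e := err_apply Λ χ G hh i hα'.1 0 (by
        unfold kf
        rw [if_neg (fun hc => hall α hα hc.2)]
        simp)
      rw [e, sub_zero]
      have hB : (α i : ℝ) ≤ B := by exact_mod_cast hbad α (hall α hα)
      have hq := qw_nonneg Λ χ h i α
      have hai : (0 : ℝ) ≤ α i := Nat.cast_nonneg _
      calc (N.factorial : ℝ) / (N : ℝ) ^ 2 * (qw Λ χ h i α * (α i : ℝ) ^ 2)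
          ≤ (N.factorial : ℝ) / (N : ℝ) ^ 2 * (qw Λ χ h i α * ((Cv + B) * (α i : ℝ))) := by
            apply mul_le_mul_of_nonneg_left _ hF0
            apply mul_le_mul_of_nonneg_left _ hq
            nlinarith
        _ = _ := by rw [sq]; ring
    rw [Finset.mul_sum]
    exact Finset.sum_le_sum h1

/-- assembly over all classes -/
theorem total_estimate {h : DA d K} (hh : h ∈ quasi Λ χ G) (i : Fin d) (n : ℕ)
    (hhom : h ∈ homog d K n) (c : ℝ) (hc : 0 ≤ c)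
    (hcl : ∀ w, ∑ α ∈ clsFin Λ (n + 1) w, ‖(Mz i h - kapp Λ χ G h i (n + 1)) α‖ ^ 2 ≤
      c * ∑ α ∈ clsFin Λ (n + 1) w,
        (((n + 1).factorial : ℝ) / (n + 1 : ℕ)) * (qw Λ χ h i α * (α i : ℝ))) :
    ‖Mz i h - kapp Λ χ G h i (n + 1)‖ ^ 2 ≤ c * ‖h‖ ^ 2 := by
  classical
  set f : (Fin d → ℕ) → ℝ := fun α => ‖(Mz i h - kapp Λ χ G h i (n + 1)) α‖ ^ 2 with hf
  set b : (Fin d → ℕ) → ℝ := fun α =>
    (((n + 1).factorial : ℝ) / (n + 1 : ℕ)) * (qw Λ χ h i α * (α i : ℝ)) with hb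
  have hzero : ∀ α ∉ degFin d (n + 1), f α = 0 := by
    intro α hα
    rw [mem_degFin] at hα
    have h1 : Mz i h α = 0 := by
      by_cases h0 : α i = 0
      · exact Mz_apply_zero i h α h0
      · have hd := deg_dec i α h0
        rw [Mz_apply, hhom _ (by omega), smul_zero]
    have h2 : kapp Λ χ G h i (n + 1) α = 0 := by
      rw [kapp_apply]
      unfold kf
      rw [if_neg (fun hc => hα hc.1), smul_zero]
    simp only [hf]
    rw [lp.coeFn_sub, Pi.sub_apply, h1, h2]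
    simp
  have hnorm : ‖Mz i h - kapp Λ χ G h i (n + 1)‖ ^ 2 = ∑ α ∈ degFin d (n + 1), f α :=
    (norm_sq_hasSum (Mz i h - kapp Λ χ G h i (n + 1))).unique (hasSum_sum_of_ne_finset_zero hzero)
  have hpart : ∀ F : (Fin d → ℕ) → ℝ, ∑ α ∈ degFin d (n + 1), F α =
      ∑ w ∈ (degFin d (n + 1)).image (cls Λ), ∑ α ∈ clsFin Λ (n + 1) w, F α := by
    intro F
    rw [← Finset.sum_fiberwise_of_maps_to (t := (degFin d (n + 1)).image (cls Λ)) (g := cls Λ)
      (fun α hα => Finset.mem_image_of_mem _ hα)]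
    apply Finset.sum_congr rfl
    intro w _
    apply Finset.sum_congr _ (fun _ _ => rfl)
    ext α
    rw [mem_clsFin, Finset.mem_filter, mem_degFin]
  have h1 : ∑ α ∈ degFin d (n + 1), f α ≤ c * ∑ α ∈ degFin d (n + 1), b α := by
    rw [hpart f, hpart b, Finset.mul_sum]
    exact Finset.sum_le_sum fun w _ => hcl w
  have h2 : ∑ α ∈ degFin d (n + 1), b α ≤ ‖h‖ ^ 2 := by
    have h3 : ∑ α ∈ degFin d (n + 1), b α =
        ∑ α ∈ (degFin d (n + 1)).filter (fun α => α i ≠ 0), ‖h (dec i α)‖ ^ 2 := by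
      rw [Finset.sum_filter]
      apply Finset.sum_congr rfl
      intro α hα
      rw [mem_degFin] at hα
      by_cases h0 : α i = 0
      · rw [if_neg (by simpa using h0)]
        simp only [hb]
        rw [h0]
        simp
      · rw [if_pos h0]
        exact (base_apply Λ χ G hh i hα h0).symm
    rw [h3]
    have hinj : Set.InjOn (dec i) ((degFin d (n + 1)).filter (fun α => α i ≠ 0) : Set (Fin d → ℕ)) := by
      intro a ha b hb hab
      exact dec_injOn i a b (Finset.mem_filter.1 ha).2 (Finset.mem_filter.1 hb).2 hab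
    rw [← Finset.sum_image (f := fun β => ‖h β‖ ^ 2) hinj]
    exact sum_le_hasSum _ (fun _ _ => sq_nonneg _) (norm_sq_hasSum h)
  rw [hnorm]
  exact h1.trans (mul_le_mul_of_nonneg_left h2 hc)

theorem localBound_lattice [CompleteSpace K] [FiniteDimensional ℂ K]
    (hΛ : ∀ v ∈ Λ, ∑ j, v j = 0) :
    ∃ C : ℝ, 0 ≤ C ∧ LocalBound (closedSubmoduleGen (latticeGens Λ χ G)) C := by
  classical
  choose Cv hCv0 hCv using fun i : Fin d => variance_bound Λ i
  choose B hB using fun i : Fin d =>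
    noether_bound (Vsp (closedSubmoduleGen (latticeGens Λ χ G))) Vsp_mono i
  refine ⟨∑ i, (Cv i + B i), Finset.sum_nonneg fun i _ => add_nonneg (hCv0 i) (Nat.cast_nonneg _),
    fun i n h hh hhom => ?_⟩
  rw [quasi_eq] at hh
  refine ⟨kapp Λ χ G h i (n + 1), ?_, ?_⟩
  · rw [quasi_eq]
    exact kapp_mem Λ χ G hΛ hh i (n + 1)
  · have hci : 0 ≤ Cv i + B i := add_nonneg (hCv0 i) (Nat.cast_nonneg _)
    have h1 := total_estimate Λ χ G hh i n hhom ((Cv i + B i) / (n + 1 : ℕ)) (by positivity)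
      (fun w => class_estimate Λ χ G hh hΛ i (Cv i) (hCv0 i) (hCv i) (B i)
        (bad_bound Λ χ G hh i (B i) (hB i)) (n + 1) w)
    refine h1.trans ?_
    apply mul_le_mul_of_nonneg_right _ (sq_nonneg _)
    push_cast
    apply div_le_div_of_nonneg_right _ (by positivity)
    exact Finset.single_le_sum (f := fun i => Cv i + (B i : ℝ))
      (fun i _ => add_nonneg (hCv0 i) (Nat.cast_nonneg _)) (Finset.mem_univ i)

end

end Pool.Agent.Lib.MP_15f9af_an
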