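import Mathlib
import Pool.Agent.Lib.MP_15f9af_an.Statement
import Pool.Agent.Lib.MP_15f9af_an.Bridge
import Pool.Agent.Lib.MP_15f9af_an.LocalBound

/-!
Douglas's refinement of Arveson's conjecture for the graded submodules of `H²_d ⊗ K` generated by
lattice binomials (with an arbitrary character) and vector-valued monomials.
-/

namespace Pool.Agent.Lib.MP_15f9af_an.ToricLattice

open Pool.Agent.Lib.MP_15f9af_an Pool.Agent.Lib.MP_15f9af_an.St

universe u

/-- Let `Λ ⊆ ℤ^d` be a subgroup of vectors with coordinate sum zero, `χ : Λ → ℂ*` a character,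
`G` any set of pairs (exponent, vector of `K`), and let `L` be the closed submodule of `H²_d ⊗ K`
generated by all `z^α v - χ(α - β) z^β v` with `α - β ∈ Λ`, `v ∈ K`, and by all `z^γ u` with
`(γ, u) ∈ G`.  Then `L` is a graded submodule, and the commutators `[S_i, S_j^*]` of its quotient
lie in the Schatten class `S^p` for every real `p ≥ 1` with `p > dim(L) = deg p_L + 1`, where `p_L`
is the Hilbert polynomial of the quotient (no condition besides `p ≥ 1` if `p_L = 0`). -/
theorem result (d : ℕ) (K : Type u) [NormedAddCommGroup K] [InnerProductSpace ℂ K]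
    [FiniteDimensional ℂ K] [CompleteSpace K] (Λ : AddSubgroup (Fin d → ℤ))
    (hΛ : ∀ v ∈ Λ, ∑ j, v j = 0) (χ : (Fin d → ℤ) → ℂ)
    (hχ : ∀ u ∈ Λ, χ u ≠ 0 ∧ ∀ v ∈ Λ, χ (u + v) = χ u * χ v) (G : Set ((Fin d → ℕ) × K)) :
    St.IsGradedSubmodule (latticeSubmodule Λ χ G) ∧ DouglasProperty (latticeSubmodule Λ χ G) := by
  have hgr : St.IsGradedSubmodule (latticeSubmodule Λ χ G) := by
    rw [graded_iff, lattice_eq Λ χ hχ G]
    exact gen_graded Λ (chr Λ χ hχ) G hΛ
  obtain ⟨C, hC, hloc⟩ := localBound_lattice Λ (chr Λ χ hχ) G hΛ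
  refine ⟨hgr, douglas_of_localBound _ hgr hC ?_⟩
  rw [lattice_eq Λ χ hχ G]
  exact hloc

end Pool.Agent.Lib.MP_15f9af_an.ToricLattice
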